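import Pool.Agent.H4.JKx

/-!
# Module AlgF (about 130 lines): a relation gives a divisor of a member of the pencil

PROOFS. `dvd_form` (induction over `b`, `c` general): `b = 0`: the sum is `C (c 0)`, `c 0 ≠ 0`, a unit: impossible for an irreducible divisor. Step to `b + 1`: if
`c (b + 1) = 0` the sum is `F * ∑ j ≤ b, C (c j) * G ^ j * F ^ (b - j)`, so `f ∣ F` (take `s = 1`, `t = 0`) or use the induction hypothesis (`f` is prime:
`UniqueFactorizationMonoid.irreducible_iff_prime`). If `c (b + 1) ≠ 0`, the polynomial `q = ∑ c j X ^ j ∈ ℂ[X]` has degree `b + 1 ≥ 1` and a root `ρ` (`IsAlgClosed`), `q = (X - C ρ) * q1`,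
`c j = q1.coeff (j - 1) - ρ * q1.coeff j`, so the sum is `(G - C ρ * F) * ∑ j ≤ b, C (q1.coeff j) * G ^ j * F ^ (b - j)` and `q1 ≠ 0` has degree at most `b`; so
`f ∣ G - C ρ * F` (take `s = - ρ`, `t = 1`) or the induction hypothesis.
`dvd_member`: let `i0` be the largest `i ≤ a` with some `c i j ≠ 0`, `j ≤ b`. The terms with `i > i0` vanish, and all others contain `f ^ (a - i0)`:
`f ^ (a - i) = f ^ (a - i0) * f ^ (i0 - i)`; cancel `f ^ (a - i0) ≠ 0`. In the remaining sum all terms with `i < i0` are divisible by `f`, so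
`f ∣ f' ^ i0 * ∑ j ≤ b, C (c i0 j) * G ^ j * F ^ (b - j)`; as `f` is prime and does not divide `f'`, it divides the last factor: `dvd_form`.
-/

namespace Pool.Agent.H21.JP

open MvPolynomial Pool.Agent.H4.JK

variable {I : Type} [Fintype I] [DecidableEq I]

omit [Fintype I] [DecidableEq I] in
private lemma AlgF_sum (F G : MvPolynomial I ℂ) (b : ℕ) (c : ℕ → ℂ) (ρ : ℂ) (q : Polynomial ℂ)
    (h0 : c 0 = - (ρ * q.coeff 0)) (hs : ∀ j < b + 1, c (j + 1) = q.coeff j - ρ * q.coeff (j + 1))
    (hq : q.coeff (b + 1) = 0) :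
    ∑ j ∈ Finset.range (b + 1 + 1), C (c j) * (G ^ j * F ^ (b + 1 - j)) =
      (G - C ρ * F) * ∑ j ∈ Finset.range (b + 1), C (q.coeff j) * (G ^ j * F ^ (b - j)) := by
  have e1 : ∑ j ∈ Finset.range (b + 1 + 1), C (ρ * q.coeff j) * (G ^ j * F ^ (b + 1 - j)) =
      C ρ * F * ∑ j ∈ Finset.range (b + 1), C (q.coeff j) * (G ^ j * F ^ (b - j)) := by
    rw [Finset.sum_range_succ, hq, mul_zero, C_0, zero_mul, add_zero, Finset.mul_sum]
    refine Finset.sum_congr rfl fun j hj => ?_
    have hj' : b + 1 - j = (b - j) + 1 := by have := Finset.mem_range.1 hj; omega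
    rw [hj', pow_succ, C_mul]
    ring
  have e2 : ∑ j ∈ Finset.range (b + 1 + 1), C (c j) * (G ^ j * F ^ (b + 1 - j)) +
      ∑ j ∈ Finset.range (b + 1 + 1), C (ρ * q.coeff j) * (G ^ j * F ^ (b + 1 - j)) =
      G * ∑ j ∈ Finset.range (b + 1), C (q.coeff j) * (G ^ j * F ^ (b - j)) := by
    rw [← Finset.sum_add_distrib, Finset.sum_range_succ', h0, Finset.mul_sum, C_neg, neg_mul,
      neg_add_cancel, add_zero]
    refine Finset.sum_congr rfl fun j hj => ?_
    rw [hs j (Finset.mem_range.1 hj), C_sub, Nat.add_sub_add_right, pow_succ]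
    ring
  rw [sub_mul, ← e1, ← e2]
  ring

theorem dvd_form {f F G : MvPolynomial I ℂ} (hf : Irreducible f) (b : ℕ) (c : ℕ → ℂ)
    (hc : ∃ j ≤ b, c j ≠ 0)
    (h : f ∣ ∑ j ∈ Finset.range (b + 1), C (c j) * (G ^ j * F ^ (b - j))) :
    ∃ s t : ℂ, (s ≠ 0 ∨ t ≠ 0) ∧ f ∣ C s * F + C t * G := by
  have hp : Prime f := UniqueFactorizationMonoid.irreducible_iff_prime.1 hf
  induction b generalizing c with
  | zero =>
    exfalso
    obtain ⟨j, hj, hcj⟩ := hc
    have hj0 : j = 0 := Nat.le_zero.1 hj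
    rw [hj0] at hcj
    rw [Finset.sum_range_succ, Finset.sum_range_zero, zero_add, pow_zero, Nat.sub_self, pow_zero,
      mul_one, mul_one] at h
    exact hp.not_isUnit (isUnit_of_dvd_unit h ((isUnit_iff_ne_zero.2 hcj).map C))
  | succ b ih =>
    by_cases hb : c (b + 1) = 0
    · have hsum : ∑ j ∈ Finset.range (b + 1 + 1), C (c j) * (G ^ j * F ^ (b + 1 - j)) =
          F * ∑ j ∈ Finset.range (b + 1), C (c j) * (G ^ j * F ^ (b - j)) := by
        rw [Finset.sum_range_succ, hb, C_0, zero_mul, add_zero, Finset.mul_sum]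
        refine Finset.sum_congr rfl fun j hj => ?_
        have hj' : b + 1 - j = (b - j) + 1 := by have := Finset.mem_range.1 hj; omega
        rw [hj', pow_succ]
        ring
      rw [hsum] at h
      rcases hp.dvd_or_dvd h with h1 | h1
      · exact ⟨1, 0, Or.inl one_ne_zero, by rw [C_1, C_0, one_mul, zero_mul, add_zero]; exact h1⟩
      · obtain ⟨j, hj, hcj⟩ := hc
        refine ih c ⟨j, ?_, hcj⟩ h1
        by_contra hjb
        have : j = b + 1 := by omega
        exact hcj (this ▸ hb)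
    · set q : Polynomial ℂ := ∑ j ∈ Finset.range (b + 1 + 1), Polynomial.monomial j (c j) with hqd
      have hcoef : ∀ j < b + 1 + 1, q.coeff j = c j := by
        intro j hj
        rw [hqd, Polynomial.finsetSum_coeff]
        simp only [Polynomial.coeff_monomial]
        rw [Finset.sum_ite_eq' (Finset.range (b + 1 + 1)) j c, if_pos (Finset.mem_range.2 hj)]
      have hcoef0 : ∀ j, b + 1 < j → q.coeff j = 0 := by
        intro j hj
        rw [hqd, Polynomial.finsetSum_coeff]
        simp only [Polynomial.coeff_monomial]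
        rw [Finset.sum_ite_eq' (Finset.range (b + 1 + 1)) j c, if_neg]
        rw [Finset.mem_range]
        omega
      have hqb : q.coeff (b + 1) ≠ 0 := by
        rw [hcoef _ (by omega)]
        exact hb
      have hdeg : q.degree ≠ 0 := by
        intro hd
        have h2 := Polynomial.eq_C_of_degree_eq_zero hd
        rw [h2, Polynomial.coeff_C, if_neg (by omega)] at hqb
        exact hqb rfl
      obtain ⟨ρ, hρ⟩ := IsAlgClosed.exists_root q hdeg
      obtain ⟨q1, hq1⟩ := Polynomial.dvd_iff_isRoot.2 hρ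
      have hq0 : q ≠ 0 := by
        intro h0
        rw [h0, Polynomial.coeff_zero] at hqb
        exact hqb rfl
      have hk0 : q.coeff 0 = - (ρ * q1.coeff 0) := by
        rw [hq1, sub_mul, Polynomial.coeff_sub, Polynomial.coeff_X_mul_zero, Polynomial.coeff_C_mul,
          zero_sub]
      have hks : ∀ j, q.coeff (j + 1) = q1.coeff j - ρ * q1.coeff (j + 1) := by
        intro j
        rw [hq1, sub_mul, Polynomial.coeff_sub, Polynomial.coeff_X_mul, Polynomial.coeff_C_mul]
      have hdq : q.natDegree ≤ b + 1 := by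
        refine Polynomial.natDegree_le_iff_coeff_eq_zero.2 fun j hj => hcoef0 j hj
      have hq10 : q1 ≠ 0 := by
        intro h0
        rw [h0, mul_zero] at hq1
        exact hq0 hq1
      have hnd : q.natDegree = 1 + q1.natDegree := by
        rw [hq1, Polynomial.natDegree_mul (Polynomial.X_sub_C_ne_zero ρ) hq10,
          Polynomial.natDegree_X_sub_C]
      have hq1b : q1.coeff (b + 1) = 0 := by
        apply Polynomial.coeff_eq_zero_of_natDegree_lt
        omega
      rw [AlgF_sum F G b c ρ q1 (by rw [← hcoef 0 (by omega)]; exact hk0)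
        (fun j hj => by rw [← hcoef (j + 1) (by omega)]; exact hks j) hq1b] at h
      rcases hp.dvd_or_dvd h with h1 | h1
      · refine ⟨- ρ, 1, Or.inr one_ne_zero, ?_⟩
        rw [C_1, one_mul, C_neg, neg_mul, neg_add_eq_sub]
        exact h1
      · refine ih (fun j => q1.coeff j) ⟨b, le_rfl, ?_⟩ h1
        intro h0
        have h2 := hks b
        rw [h0, hq1b, mul_zero, sub_zero] at h2
        exact hqb h2

theorem dvd_member {f f' F G : MvPolynomial I ℂ} (hf : Irreducible f) (hne : ¬ f ∣ f')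
    {a b : ℕ} {c : ℕ → ℕ → ℂ} (hc : ∃ i ≤ a, ∃ j ≤ b, c i j ≠ 0)
    (h : ∑ i ∈ Finset.range (a + 1), ∑ j ∈ Finset.range (b + 1),
        C (c i j) * (f' ^ i * f ^ (a - i) * G ^ j * F ^ (b - j)) = 0) :
    ∃ s t : ℂ, (s ≠ 0 ∨ t ≠ 0) ∧ f ∣ C s * F + C t * G := by
  have hp : Prime f := UniqueFactorizationMonoid.irreducible_iff_prime.1 hf
  induction a with
  | zero =>
    obtain ⟨i, hi, j, hj, hcj⟩ := hc
    have hi0 : i = 0 := Nat.le_zero.1 hi
    rw [hi0] at hcj
    refine dvd_form hf b (c 0) ⟨j, hj, hcj⟩ ?_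
    rw [Finset.sum_range_succ, Finset.sum_range_zero, zero_add] at h
    simp only [pow_zero, Nat.sub_self, one_mul] at h
    rw [h]
    exact dvd_zero f
  | succ a ih =>
    rw [Finset.sum_range_succ] at h
    have e1 : ∑ i ∈ Finset.range (a + 1), ∑ j ∈ Finset.range (b + 1),
        C (c i j) * (f' ^ i * f ^ (a + 1 - i) * G ^ j * F ^ (b - j)) =
        f * ∑ i ∈ Finset.range (a + 1), ∑ j ∈ Finset.range (b + 1),
        C (c i j) * (f' ^ i * f ^ (a - i) * G ^ j * F ^ (b - j)) := by
      rw [Finset.mul_sum]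
      refine Finset.sum_congr rfl fun i hi => ?_
      rw [Finset.mul_sum]
      refine Finset.sum_congr rfl fun j _ => ?_
      have hi' : a + 1 - i = (a - i) + 1 := by have := Finset.mem_range.1 hi; omega
      rw [hi', pow_succ]
      ring
    have e2 : ∑ j ∈ Finset.range (b + 1),
        C (c (a + 1) j) * (f' ^ (a + 1) * f ^ (a + 1 - (a + 1)) * G ^ j * F ^ (b - j)) =
        f' ^ (a + 1) * ∑ j ∈ Finset.range (b + 1), C (c (a + 1) j) * (G ^ j * F ^ (b - j)) := by
      rw [Finset.mul_sum]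
      refine Finset.sum_congr rfl fun j _ => ?_
      rw [Nat.sub_self, pow_zero]
      ring
    rw [e1, e2] at h
    by_cases hall : ∃ j ≤ b, c (a + 1) j ≠ 0
    · have h1 : f ∣ f' ^ (a + 1) *
          ∑ j ∈ Finset.range (b + 1), C (c (a + 1) j) * (G ^ j * F ^ (b - j)) :=
        (dvd_add_right (dvd_mul_right f _)).1 (by rw [h]; exact dvd_zero f)
      rcases hp.dvd_or_dvd h1 with h2 | h2
      · exact absurd (hp.dvd_of_dvd_pow h2) hne
      · exact dvd_form hf b (c (a + 1)) hall h2
    · push Not at hall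
      have h1 : ∑ j ∈ Finset.range (b + 1), C (c (a + 1) j) * (G ^ j * F ^ (b - j)) = 0 := by
        refine Finset.sum_eq_zero fun j hj => ?_
        have := Finset.mem_range.1 hj
        rw [hall j (by omega), C_0, zero_mul]
      rw [h1, mul_zero, add_zero] at h
      have h2 := (mul_eq_zero.1 h).resolve_left hp.ne_zero
      refine ih ?_ h2
      obtain ⟨i, hi, j, hj, hcj⟩ := hc
      refine ⟨i, ?_, j, hj, hcj⟩
      by_contra hia
      have : i = a + 1 := by omega
      rw [this] at hcj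
      exact hcj (hall j hj)

end Pool.Agent.H21.JP
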