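import Pool.Agent.H21.JN.Ln

/-!
# Module Wr (about 110 lines): the form F dG - G dF

PROOFS. `wr_ne`: suppose `F * pderiv i G = G * pderiv i F` for all `i`. `F`, `G` are not zero (`NP`). By
`UniqueFactorizationMonoid.exists_reduced_factors'` (or any gcd argument) `F = c * F'`, `G = c * G'` with `IsRelPrime F' G'`, `c ≠ 0`; the product
rule gives `wr F G i = c ^ 2 * wr F' G' i`, so `F' * pderiv i G' = G' * pderiv i F'`; so `F' ∣ G' * pderiv i F'`, hence `F' ∣ pderiv i F'`
(`IsRelPrime.dvd_of_dvd_mul_left`), `pderiv i F' = 0` (`pderiv_zero_of_dvd`, JKo) for all `i` and `F'` is a constant (`eq_C_of_pderiv`, JKu); the same for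
`G'`; so `F`, `G` are proportional. `wr_hom`: `grd_hom`. `wr_euler`: `euler` twice. `wr_ker`: `hA` gives `𝒜 i j = - 𝒜 j i`, so
`∑ j, 𝒜 i j * pderiv j G = - gj 𝒜 G i = - C (χ i) * G`, the same for `F`. `np_irr`: if `t ≠ 0` then `f ∣ f'`; so `t = 0` and `C s * f = 0`. `np_pos`: otherwise
both are constants (`IsHomogeneous` of degree zero: `MvPolynomial.isHomogeneous_zero_iff` or `totalDegree`), hence proportional.
-/

namespace Pool.Agent.H21.JP

open MvPolynomial Pool.Agent.H4.JK Pool.Agent.H21.JN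

variable {I : Type} [Fintype I] [DecidableEq I]

/-- `F` and `G` are not proportional. -/
def NP (F G : MvPolynomial I ℂ) : Prop := ∀ s t : ℂ, C s * F + C t * G = 0 → s = 0 ∧ t = 0

/-- The coefficients of the form `F dG - G dF`. -/
noncomputable def wr (F G : MvPolynomial I ℂ) (i : I) : MvPolynomial I ℂ :=
  F * pderiv i G - G * pderiv i F

private theorem wr_aux_left {F G : MvPolynomial I ℂ} (h : NP F G) : F ≠ 0 := by
  intro h0
  have h1 := h 1 0 (by rw [h0, mul_zero, C_0, zero_mul, zero_add])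
  exact one_ne_zero h1.1

private theorem wr_aux_const {a b : ℂ} {c : MvPolynomial I ℂ} (h : NP (c * C a) (c * C b)) :
    False := by
  have h1 := h b (-a) (by
    rw [C_neg]
    ring)
  have h2 : a = 0 := neg_eq_zero.1 h1.2
  exact wr_aux_left h (by rw [h2, C_0, mul_zero])

theorem wr_ne {F G : MvPolynomial I ℂ} (h : NP F G) : ∃ i, wr F G i ≠ 0 := by
  by_contra hc
  push Not at hc
  have hF : F ≠ 0 := wr_aux_left h
  obtain ⟨G', F', c, hrel, hG, hF'⟩ := UniqueFactorizationMonoid.exists_reduced_factors' G F hF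
  have hc0 : c ≠ 0 := by
    rintro rfl
    rw [zero_mul] at hF'
    exact hF hF'.symm
  have key : ∀ i, F' * pderiv i G' = G' * pderiv i F' := by
    intro i
    have h1 := hc i
    rw [wr, ← hF', ← hG, pderiv_mul, pderiv_mul] at h1
    have h2 : c * c * (F' * pderiv i G' - G' * pderiv i F') = 0 := by
      rw [← h1]
      ring
    have h3 := (mul_eq_zero.1 h2).resolve_left (mul_ne_zero hc0 hc0)
    exact sub_eq_zero.1 h3
  obtain ⟨a, ha⟩ := eq_C_of_pderiv (f := F') fun i => by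
    apply pderiv_zero_of_dvd
    have h1 : F' ∣ G' * pderiv i F' := ⟨_, (key i).symm⟩
    exact hrel.symm.dvd_of_dvd_mul_left h1
  obtain ⟨b, hb⟩ := eq_C_of_pderiv (f := G') fun i => by
    apply pderiv_zero_of_dvd
    have h1 : G' ∣ F' * pderiv i G' := ⟨_, key i⟩
    exact hrel.dvd_of_dvd_mul_left h1
  rw [← hF', ← hG, ha, hb] at h
  exact wr_aux_const h

theorem wr_hom {F G : MvPolynomial I ℂ} {e : ℕ} (hF : F.IsHomogeneous e) (hG : G.IsHomogeneous e)
    (he : 1 ≤ e) (i : I) : (wr F G i).IsHomogeneous (2 * e - 1) := by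
  have h : 2 * e - 1 = e + (e - 1) := by omega
  rw [h]
  exact (hF.mul (grd_hom hG i)).sub (hG.mul (grd_hom hF i))

theorem wr_euler {F G : MvPolynomial I ℂ} {e : ℕ} (hF : F.IsHomogeneous e)
    (hG : G.IsHomogeneous e) : ∑ i, X i * wr F G i = 0 := by
  have h : ∑ i, X i * wr F G i = F * ∑ i, X i * pderiv i G - G * ∑ i, X i * pderiv i F := by
    rw [Finset.mul_sum, Finset.mul_sum, ← Finset.sum_sub_distrib]
    refine Finset.sum_congr rfl fun i _ => ?_
    rw [wr]
    ring
  rw [h, euler hF, euler hG]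
  ring

theorem wr_ker {𝒜 : Matrix I I (MvPolynomial I ℂ)} (hA : 𝒜.transpose = -𝒜)
    {F G : MvPolynomial I ℂ} {χ : I → ℂ} (hF : ∀ j, gj 𝒜 F j = C (χ j) * F)
    (hG : ∀ j, gj 𝒜 G j = C (χ j) * G) (i : I) : ∑ j, 𝒜 i j * wr F G j = 0 := by
  have h0 : ∀ j, 𝒜 i j = -𝒜 j i := by
    intro j
    have h1 := congrFun (congrFun hA j) i
    simpa using h1
  have h : ∑ j, 𝒜 i j * wr F G j = G * gj 𝒜 F i - F * gj 𝒜 G i := by
    rw [gj, gj, Finset.mul_sum, Finset.mul_sum, ← Finset.sum_sub_distrib]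
    refine Finset.sum_congr rfl fun j _ => ?_
    rw [wr, h0 j]
    ring
  rw [h, hF, hG]
  ring

theorem np_irr {f f' : MvPolynomial I ℂ} (hf : Irreducible f) (hne : ¬ f ∣ f') : NP f f' := by
  intro s t hst
  have ht : t = 0 := by
    by_contra ht
    apply hne
    refine ⟨C (-(t⁻¹ * s)), ?_⟩
    have h1 : C t⁻¹ * (C s * f + C t * f') = 0 := by rw [hst, mul_zero]
    have h2 : (C t⁻¹ * C t : MvPolynomial I ℂ) = 1 := by
      rw [← C_mul, inv_mul_cancel₀ ht, C_1]
    rw [C_neg, C_mul]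
    linear_combination h1 - f' * h2
  refine ⟨?_, ht⟩
  rw [ht, C_0, zero_mul, add_zero] at hst
  exact C_eq_zero.1 ((mul_eq_zero.1 hst).resolve_right hf.ne_zero)

theorem np_pos {F G : MvPolynomial I ℂ} {e : ℕ} (h : NP F G) (hF : F.IsHomogeneous e)
    (hG : G.IsHomogeneous e) : 1 ≤ e := by
  by_contra he
  have he0 : e = 0 := by omega
  subst he0
  have h1 := totalDegree_eq_zero_iff_eq_C.1 (Nat.le_zero.1 hF.totalDegree_le)
  have h2 := totalDegree_eq_zero_iff_eq_C.1 (Nat.le_zero.1 hG.totalDegree_le)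
  rw [← one_mul F, ← one_mul G, h1, h2] at h
  exact wr_aux_const h

end Pool.Agent.H21.JP
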