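import Pool.Agent.H21.JP.TwoD
import Pool.Agent.H21.JP.Wr

/-!
# Module AlgR (about 160 lines): parallel forms give an algebraic relation

PROOF. Take `a = 2 * N`, `b = 2 * e`, `J = Fin (a + 1) × Fin (b + 1)`, `g (i, j) = f' ^ i * f ^ (a - i) * G ^ j * F ^ (b - j)`, homogeneous of degree
`a * e + b * N = 4 * e * N`. If the `g (i, j)` are linearly independent then `two_dim_bound` gives `(2 * N + 1) * (2 * e + 1) ≤ 4 * e * N + 1`, impossible
(`1 ≤ N`). So there is a nontrivial relation (`Fintype.not_linearIndependent_iff`); put `c i j = ` its coefficients (`0` outside the range).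
GRADIENTS: for generic `p`, `x = p.1`, `f`, `F` do not vanish at `x` (`gen_fst`; `f ≠ 0` by `hf0`, `F ≠ 0` by `hnp`), and some `wr F G k` does not vanish
(`wr_ne`). Put `η i = eval x (wr F G i)`; by `hpar` `eval x (wr f f' i) = μ * η i` for all `i` with `μ = eval x (wr f f' k) / eval x (wr F G k)`. Let
`θ i = a * F * pderiv i f + b * f * pderiv i F` at `x`, `L` = the span of `θ`, `η`, of dimension at most two. The identity of polynomials
`f * F * pderiv k (g (i, j)) = g (i, j) * (a * F * pderiv k f + b * f * pderiv k F)`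
`  + i * f' ^ (i - 1) * f ^ (a - i) * G ^ j * F ^ (b - j) * F * wr f f' k + j * f' ^ i * f ^ (a - i) * G ^ (j - 1) * F ^ (b - j) * f * wr F G k`
(Leibniz rule; `f * pderiv k f' = wr f f' k + f' * pderiv k f`, so `f * pderiv k (f' ^ i * f ^ (a - i)) = i * f' ^ (i - 1) * f ^ (a - i) * wr f f' k + a * f' ^ i * f ^ (a - i) * pderiv k f`
for `i ≤ a`, and the same for `F, G`) shows `grd (g (i, j)) x ∈ L`.
-/

namespace Pool.Agent.H21.JP

open MvPolynomial Module Pool.Agent.H4.JK Pool.Agent.H21.JN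

variable {I : Type} [Fintype I] [DecidableEq I]

set_option linter.unusedSectionVars false in
private theorem algR_dpow {A : Type} [CommRing A] [Algebra ℂ A] (D : Derivation ℂ A A) (f f' : A)
    {a i : ℕ} (hi : i ≤ a) :
    f * D (f' ^ i * f ^ (a - i)) =
      (i : A) * (f' ^ (i - 1) * f ^ (a - i)) * (f * D f' - f' * D f) +
        (a : A) * (f' ^ i * f ^ (a - i)) * D f := by
  rw [D.leibniz, D.leibniz_pow, D.leibniz_pow]
  simp only [smul_eq_mul, nsmul_eq_mul]
  have h1 : ((a - i : ℕ) : A) * (f ^ (a - i - 1) * f) = ((a - i : ℕ) : A) * f ^ (a - i) := by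
    rcases Nat.eq_zero_or_pos (a - i) with h | h
    · rw [h]; simp
    · rw [← pow_succ, Nat.sub_add_cancel h]
  have h2 : (i : A) * (f' ^ (i - 1) * f') = (i : A) * f' ^ i := by
    rcases Nat.eq_zero_or_pos i with h | h
    · rw [h]; simp
    · rw [← pow_succ, Nat.sub_add_cancel h]
  have h3 : ((a - i : ℕ) : A) = (a : A) - i := by
    rw [Nat.cast_sub hi]
  linear_combination (f' ^ i * D f) * h1 + (f ^ (a - i) * D f) * h2 +
    (f' ^ i * f ^ (a - i) * D f) * h3

set_option linter.unusedSectionVars false in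
private theorem algR_key (f f' F G : MvPolynomial I ℂ) {a b i j : ℕ} (hi : i ≤ a) (hj : j ≤ b)
    (k : I) :
    f * F * pderiv k ((f' ^ i * f ^ (a - i)) * (G ^ j * F ^ (b - j))) =
      (f' ^ i * f ^ (a - i)) * (G ^ j * F ^ (b - j)) *
        ((a : MvPolynomial I ℂ) * F * pderiv k f + (b : MvPolynomial I ℂ) * f * pderiv k F) +
      ((i : MvPolynomial I ℂ) * (f' ^ (i - 1) * f ^ (a - i)) * (G ^ j * F ^ (b - j)) * F) *
        wr f f' k +
      ((j : MvPolynomial I ℂ) * (G ^ (j - 1) * F ^ (b - j)) * (f' ^ i * f ^ (a - i)) * f) *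
        wr F G k := by
  have h1 := algR_dpow (pderiv k) f f' hi
  have h2 := algR_dpow (pderiv k) F G hj
  rw [(pderiv k).leibniz, wr, wr]
  simp only [smul_eq_mul]
  linear_combination (F * (G ^ j * F ^ (b - j))) * h1 + (f * (f' ^ i * f ^ (a - i))) * h2

private theorem algR_grad {f f' F G : MvPolynomial I ℂ} {x : I → ℂ} {k : I}
    (hf : eval x f ≠ 0) (hF : eval x F ≠ 0) (hk : eval x (wr F G k) ≠ 0)
    (hpar : ∀ i j, wr f f' i * wr F G j = wr f f' j * wr F G i) (a b : ℕ) :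
    ∃ L : Submodule ℂ (I → ℂ), finrank ℂ L ≤ 2 ∧ ∀ i j, i ≤ a → j ≤ b →
      grd ((f' ^ i * f ^ (a - i)) * (G ^ j * F ^ (b - j))) x ∈ L := by
  set θ : I → ℂ := fun l => eval x ((a : MvPolynomial I ℂ) * F * pderiv l f +
    (b : MvPolynomial I ℂ) * f * pderiv l F) with hθ
  set η : I → ℂ := fun l => eval x (wr F G l) with hη
  set μ : ℂ := eval x (wr f f' k) / eval x (wr F G k) with hμ
  have hw : ∀ l, eval x (wr f f' l) = μ * η l := by
    intro l
    have h1 := congrArg (eval x) (hpar k l)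
    rw [map_mul, map_mul] at h1
    rw [hμ, hη]
    field_simp
    linear_combination -h1
  refine ⟨Submodule.span ℂ {θ, η}, ?_, ?_⟩
  · refine (finrank_span_le_card _).trans ?_
    rw [Set.toFinset_insert, Set.toFinset_singleton]
    exact Finset.card_le_two
  · intro i j hi hj
    rw [Submodule.mem_span_pair]
    set A : ℂ := eval x ((f' ^ i * f ^ (a - i)) * (G ^ j * F ^ (b - j)))
    set B : ℂ := eval x ((i : MvPolynomial I ℂ) * (f' ^ (i - 1) * f ^ (a - i)) *
      (G ^ j * F ^ (b - j)) * F)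
    set E : ℂ := eval x ((j : MvPolynomial I ℂ) * (G ^ (j - 1) * F ^ (b - j)) *
      (f' ^ i * f ^ (a - i)) * f)
    refine ⟨(eval x f * eval x F)⁻¹ * A, (eval x f * eval x F)⁻¹ * (B * μ + E), ?_⟩
    funext l
    have h1 := congrArg (eval x) (algR_key f f' F G hi hj l)
    rw [map_mul, map_mul, map_add, map_add, map_mul (eval x) (_ * _) (wr f f' l),
      map_mul (eval x) (_ * _) (wr F G l), map_mul (eval x) (_ * _) (_ + _), hw l] at h1
    have h2 : eval x f * eval x F ≠ 0 := mul_ne_zero hf hF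
    change (eval x f * eval x F)⁻¹ * A * θ l + (eval x f * eval x F)⁻¹ * (B * μ + E) * η l =
      eval x (pderiv l _)
    rw [← mul_right_inj' h2, h1, hθ, hη]
    field_simp
    ring

theorem exists_rel {f f' F G : MvPolynomial I ℂ} {e N : ℕ} (hN : 1 ≤ N) (hf0 : f ≠ 0)
    (hf : f.IsHomogeneous e) (hf' : f'.IsHomogeneous e) (hF : F.IsHomogeneous N)
    (hG : G.IsHomogeneous N) (hnp : NP F G)
    (hpar : ∀ i j, wr f f' i * wr F G j = wr f f' j * wr F G i) :
    ∃ (a b : ℕ) (c : ℕ → ℕ → ℂ), (∃ i ≤ a, ∃ j ≤ b, c i j ≠ 0) ∧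
      ∑ i ∈ Finset.range (a + 1), ∑ j ∈ Finset.range (b + 1),
        C (c i j) * (f' ^ i * f ^ (a - i) * G ^ j * F ^ (b - j)) = 0 := by
  have hF0 : F ≠ 0 := by
    intro h0
    have h1 := hnp 1 0 (by rw [h0, mul_zero, C_0, zero_mul, zero_add])
    exact one_ne_zero h1.1
  obtain ⟨k, hk⟩ := wr_ne hnp
  set g : Fin (2 * N + 1) × Fin (2 * e + 1) → MvPolynomial I ℂ := fun q =>
    (f' ^ (q.1 : ℕ) * f ^ (2 * N - q.1)) * (G ^ (q.2 : ℕ) * F ^ (2 * e - q.2)) with hg
  have hdep : ¬ LinearIndependent ℂ g := by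
    intro hli
    have hhom : ∀ q, (g q).IsHomogeneous (e * (2 * N) + N * (2 * e)) := by
      intro q
      have h1 : (q.1 : ℕ) ≤ 2 * N := Nat.lt_succ_iff.1 q.1.2
      have h2 : (q.2 : ℕ) ≤ 2 * e := Nat.lt_succ_iff.1 q.2.2
      have h3 := ((hf'.pow q.1).mul (hf.pow (2 * N - q.1))).mul
        ((hG.pow q.2).mul (hF.pow (2 * e - q.2)))
      have h4 : e * (q.1 : ℕ) + e * (2 * N - q.1) + (N * (q.2 : ℕ) + N * (2 * e - q.2)) =
          e * (2 * N) + N * (2 * e) := by
        rw [← Nat.mul_add, ← Nat.mul_add, Nat.add_sub_cancel' h1, Nat.add_sub_cancel' h2]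
      rw [h4] at h3
      exact h3
    have hfr : ∃ᶠ p in gen I, ∃ L : Submodule ℂ (I → ℂ), finrank ℂ L ≤ 2 ∧
        ∀ q, grd (g q) p.1 ∈ L := by
      apply Filter.Eventually.frequently
      filter_upwards [gen_fst hf0, gen_fst hF0, gen_fst hk] with p h1 h2 h3
      obtain ⟨L, hL, hgL⟩ := algR_grad h1 h2 h3 hpar (2 * N) (2 * e)
      exact ⟨L, hL, fun q => hgL _ _ (Nat.lt_succ_iff.1 q.1.2) (Nat.lt_succ_iff.1 q.2.2)⟩
    have h1 := two_dim_bound g hli _ hhom hfr
    rw [Fintype.card_prod, Fintype.card_fin, Fintype.card_fin] at h1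
    nlinarith
  rw [Fintype.not_linearIndependent_iff] at hdep
  obtain ⟨d, hd0, ⟨i0, j0⟩, hd⟩ := hdep
  obtain ⟨c, hc⟩ : ∃ c : ℕ → ℕ → ℂ, ∀ (i : Fin (2 * N + 1)) (j : Fin (2 * e + 1)),
      c i j = d (i, j) :=
    ⟨fun i j => if h : i < 2 * N + 1 ∧ j < 2 * e + 1 then d (⟨i, h.1⟩, ⟨j, h.2⟩) else 0,
      fun i j => dif_pos ⟨i.2, j.2⟩⟩
  refine ⟨2 * N, 2 * e, c, ?_, ?_⟩
  · refine ⟨i0, Nat.lt_succ_iff.1 i0.2, j0, Nat.lt_succ_iff.1 j0.2, ?_⟩
    rw [hc]
    exact hd
  · rw [Finset.sum_range, ← hd0, Fintype.sum_prod_type]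
    refine Finset.sum_congr rfl fun i _ => ?_
    rw [Finset.sum_range]
    refine Finset.sum_congr rfl fun j _ => ?_
    rw [hc, smul_eq_C_mul, hg]
    simp only [mul_assoc]

end Pool.Agent.H21.JP
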