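import Pool.Agent.H21.JR.FinX

/-!
# Module Fam (about 120 lines): types with many bad groups of given multiplicities

PROOF. For `m ∈ M` and `i < n` put `x m i = m * n + i + 1` and `s m i = {x m i, x m i}`; the numbers `x m i` are different for different pairs `(m, i)` (`i < n`; `Nat.div_add_mod`), positive, so the groups
are different, bad, and have positive members. `T = (K, ∑ m ∈ M, ∑ i ∈ range n, Multiset.replicate m (s m i))`. Then `T.2.count (s m i) = m` (`Multiset.count_sum'`, `Multiset.count_replicate`,
`Finset.sum_eq_single`) and every member of `T.2` is some `s m i`, so its multiplicity is `m ∈ M`.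
-/

namespace Pool.Agent.H21.JP

open Pool.Agent.H4.JK

open Classical in
theorem fam2 (K : Multiset ℕ) (M : Finset ℕ) (hM : ∀ m ∈ M, 1 ≤ m) (n : ℕ) :
    ∃ T : Multiset ℕ × Multiset (Multiset ℕ), IsType T ∧ T.1 = K ∧
      (∀ s ∈ T.2, Bad s ∧ T.2.count s ∈ M) ∧
      ∀ m ∈ M, n ≤ (T.2.toFinset.filter fun s => Bad s ∧ T.2.count s = m).card := by
  set x : ℕ → ℕ → ℕ := fun m i => m * n + i + 1 with hx
  set s : ℕ → ℕ → Multiset ℕ := fun m i => Multiset.replicate 2 (x m i) with hs
  set B : Multiset (Multiset ℕ) :=
    ∑ m ∈ M, ∑ i ∈ Finset.range n, Multiset.replicate m (s m i) with hB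
  have hxlt : ∀ m m' i i', m < m' → i < n → x m i < x m' i' := by
    intro m m' i i' h hi
    have h1 := Nat.mul_le_mul_right n (Nat.succ_le_of_lt h)
    have h2 : (m + 1) * n = m * n + n := by ring
    simp only [hx]
    simp only [Nat.succ_eq_add_one, h2] at h1
    omega
  have hxinj : ∀ m m' i i', i < n → i' < n → x m i = x m' i' → m = m' ∧ i = i' := by
    intro m m' i i' hi hi' h
    rcases lt_trichotomy m m' with h1 | h1 | h1
    · exact absurd h (hxlt m m' i i' h1 hi).ne
    · refine ⟨h1, ?_⟩
      subst h1
      simp only [hx] at h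
      omega
    · exact absurd h.symm (hxlt m' m i' i h1 hi').ne
  have hsinj : ∀ m m' i i', i < n → i' < n → s m i = s m' i' → m = m' ∧ i = i' := by
    intro m m' i i' hi hi' h
    apply hxinj m m' i i' hi hi'
    have h1 : x m i ∈ s m i := Multiset.mem_replicate.2 ⟨two_ne_zero, rfl⟩
    rw [h] at h1
    exact (Multiset.mem_replicate.1 h1).2
  have hbad : ∀ m i, Bad (s m i) := by
    intro m i
    refine ⟨x m i, ?_, ?_⟩
    · rw [hs, Multiset.count_replicate_self]
    · intro m' hm'
      exact (Multiset.mem_replicate.1 hm').2.le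
  have hcount : ∀ m ∈ M, ∀ i, i < n → B.count (s m i) = m := by
    intro m hm i hi
    rw [hB, Multiset.count_sum', Finset.sum_eq_single m]
    · rw [Multiset.count_sum', Finset.sum_eq_single i]
      · exact Multiset.count_replicate_self _ _
      · intro j hj hji
        rw [Multiset.count_replicate, if_neg]
        intro h
        exact hji (hsinj m m j i (Finset.mem_range.1 hj) hi h).2
      · intro h
        exact absurd (Finset.mem_range.2 hi) h
    · intro m' _ hmm
      rw [Multiset.count_sum']
      apply Finset.sum_eq_zero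
      intro j hj
      rw [Multiset.count_replicate, if_neg]
      intro h
      exact hmm (hsinj m' m j i (Finset.mem_range.1 hj) hi h).1
    · intro h
      exact absurd hm h
  have hmem : ∀ t ∈ B, ∃ m ∈ M, ∃ i, i < n ∧ t = s m i := by
    intro t ht
    rw [hB, Multiset.mem_sum] at ht
    obtain ⟨m, hm, ht⟩ := ht
    rw [Multiset.mem_sum] at ht
    obtain ⟨i, hi, ht⟩ := ht
    exact ⟨m, hm, i, Finset.mem_range.1 hi, (Multiset.mem_replicate.1 ht).2⟩
  refine ⟨(K, B), ?_, rfl, ?_, ?_⟩
  · intro t ht
    obtain ⟨m, _, i, _, rfl⟩ := hmem t ht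
    refine ⟨?_, ?_⟩
    · intro h
      have h1 : x m i ∈ s m i := Multiset.mem_replicate.2 ⟨two_ne_zero, rfl⟩
      rw [h] at h1
      exact Multiset.notMem_zero _ h1
    · intro a ha
      rw [(Multiset.mem_replicate.1 ha).2]
      exact Nat.succ_pos _
  · intro t ht
    obtain ⟨m, hm, i, hi, rfl⟩ := hmem t ht
    exact ⟨hbad m i, by rw [hcount m hm i hi]; exact hm⟩
  · intro m hm
    have h1 : ((Finset.range n).image (s m)).card = n := by
      rw [Finset.card_image_of_injOn, Finset.card_range]
      intro i hi j hj h
      exact (hsinj m m i j (Finset.mem_range.1 hi) (Finset.mem_range.1 hj) h).2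
    calc n = ((Finset.range n).image (s m)).card := h1.symm
      _ ≤ _ := by
        apply Finset.card_le_card
        intro t ht
        obtain ⟨i, hi, rfl⟩ := Finset.mem_image.1 ht
        have hi := Finset.mem_range.1 hi
        have hc := hcount m hm i hi
        rw [Finset.mem_filter, Multiset.mem_toFinset]
        refine ⟨?_, hbad m i, hc⟩
        rw [← Multiset.count_pos]
        rw [hc]
        exact hM m hm

end Pool.Agent.H21.JP
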