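import Pool.Agent.H21.JP.Nec2
import Pool.Agent.H21.JP.Fam
import Pool.Agent.H21.JN.NecM

/-!
# Module Asy (about 170 lines): which multiplicities can occur for many bad groups

PROOFS. `suff`: `fam2` gives `T` with `T.1 = K`. If `1 ∈ K` or `2 ≤ K.count 0` use `realisable_all` / `realisable_main` (JKe, JKf). If `k ∈ K`, `2 ≤ k`, `k + 1 ≤ 2 * N`
(so `2 ≤ N`) and `N` divides all `m ∈ M`: `engine` with `D = {(k, N)}`, `l = 0`: `T.2.count s ∈ M` is a multiple of `N`, so it is in the closure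
(`AddSubmonoid.closure`: `nsmul_mem`).
`asym`: (⇐) `suff`. (⇒) Suppose that the right side fails: `1 ∉ K`, `K.count 0 ≤ 1`, no such `k, N`. Let `c = ∑ (k + 1)` over `K`, `n = (b + 1) ^ c + 1`, and take `T` for this `n`. `K.filter (0 < k < 2 b)`
has at most one element. If it is empty then all `k ∈ K`, `k ≠ 0`, satisfy `2 * b ≤ k`; `nec_m` with `m = b` bounds the number of the bad groups with
multiplicity at most `b` by `n - 1`; for any `m ∈ M` the groups with multiplicity `m ≤ b` are a subset: contradiction. If it is `{k0}` then `2 ≤ k0` (`1 ∉ K`), `K.count k0 = 1`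
(`Multiset.count_filter`), and all `k ∈ K`, `k ≠ 0`, `k ≠ k0`, satisfy `2 * b ≤ k`; `nec_two` with `m = b` gives `N` with `k0 + 1 ≤ 2 * N`; if some `m ∈ M` is not divisible by `N`
then the groups with multiplicity `m` are a subset of the exceptional set: contradiction; so `N` divides all `m ∈ M` and the right side holds.
`thresh`: the same with a single multiplicity and no condition on `K`: (⇒) if `1 ∉ K`, `K.count 0 ≤ 1` and all `k ∈ K` with `2 ≤ k` satisfy `2 * m ≤ k`, `nec_m` gives a contradiction;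
(⇐) `suff` with `M = {m}`, `N = m`.
-/

namespace Pool.Agent.H21.JP

open Pool.Agent.H4.JK Pool.Agent.H21.JN

/-- For every `n` there is a realisable type with Kronecker part `K` in which every `m ∈ M` is the
multiplicity of at least `n` different bad groups. -/
def Many (K : Multiset ℕ) (M : Finset ℕ) : Prop :=
  open Classical in
  ∀ n : ℕ, ∃ T : Multiset ℕ × Multiset (Multiset ℕ), IsType T ∧ Realisable T ∧ T.1 = K ∧
    ∀ m ∈ M, n ≤ (T.2.toFinset.filter fun s => Bad s ∧ T.2.count s = m).card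

open Classical in
theorem suff (K : Multiset ℕ) (M : Finset ℕ) (hM : ∀ m ∈ M, 1 ≤ m)
    (h : 1 ∈ K ∨ 2 ≤ K.count 0 ∨ ∃ k ∈ K, 2 ≤ k ∧ ∃ N, k + 1 ≤ 2 * N ∧ ∀ m ∈ M, N ∣ m) (n : ℕ) :
    ∃ T : Multiset ℕ × Multiset (Multiset ℕ), IsType T ∧ Realisable T ∧ T.1 = K ∧
      (∀ s ∈ T.2, Bad s ∧ T.2.count s ∈ M) ∧
      ∀ m ∈ M, n ≤ (T.2.toFinset.filter fun s => Bad s ∧ T.2.count s = m).card := by
  obtain ⟨T, hT, hK, hs, hn⟩ := fam2 K M hM n
  refine ⟨T, hT, ?_, hK, hs, hn⟩
  rcases h with h | h | ⟨k, hk, hk2, N, hN, hd⟩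
  · exact realisable_main T hT (Or.inl (by rw [hK]; exact h))
  · exact realisable_main T hT (Or.inr (by rw [hK]; exact h))
  · refine Pool.Agent.H21.JR.engine T hT {(k, N)} ?_ ?_ (fun _ => 0) ?_ ?_
    · rw [Multiset.map_singleton, hK]
      exact Multiset.singleton_le.2 hk
    · intro d hd'
      rw [Multiset.mem_singleton] at hd'
      subst hd'
      exact ⟨hk2, by show 2 ≤ N; omega, hN⟩
    · intro s hs' _
      refine ⟨Nat.zero_le _, ?_⟩
      obtain ⟨q, hq⟩ := hd _ (hs s hs').2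
      rw [Nat.sub_zero, hq, mul_comm, ← smul_eq_mul]
      have hmem : N ∈ AddSubmonoid.closure {N' | ∃ d ∈ ({(k, N)} : Multiset (ℕ × ℕ)), d.2 = N'} :=
        AddSubmonoid.subset_closure ⟨(k, N), Multiset.mem_singleton_self _, rfl⟩
      exact nsmul_mem hmem q
    · rw [Finset.sum_const_zero]
      exact Nat.zero_le _

/-- The case without a small nonzero Kronecker block. -/
private theorem Asy_none (K : Multiset ℕ) (m b : ℕ) (hm : m ≤ b) (h0 : K.count 0 ≤ 1)
    (hK : ∀ k ∈ K, k ≠ 0 → 2 * b ≤ k)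
    (h : open Classical in
      ∃ T : Multiset ℕ × Multiset (Multiset ℕ), IsType T ∧ Realisable T ∧ T.1 = K ∧
      (b + 1) ^ (K.map (· + 1)).sum + 1 ≤
        (T.2.toFinset.filter fun s => Bad s ∧ T.2.count s = m).card) : False := by
  classical
  obtain ⟨T, hT, hR, hTK, hn⟩ := h
  subst hTK
  have h1 := nec_m T hR b hK h0
  have h2 : (T.2.toFinset.filter fun s => Bad s ∧ T.2.count s = m).card ≤
      (T.2.toFinset.filter fun s => Bad s ∧ T.2.count s ≤ b).card := by
    apply Finset.card_le_card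
    intro s hs
    rw [Finset.mem_filter] at hs ⊢
    exact ⟨hs.1, hs.2.1, by rw [hs.2.2]; exact hm⟩
  have h3 := (hn.trans h2).trans h1
  omega

theorem asym (K : Multiset ℕ) (M : Finset ℕ) (b : ℕ) (hne : M.Nonempty)
    (hM : ∀ m ∈ M, 1 ≤ m ∧ m ≤ b) (hK : (K.filter fun k => 0 < k ∧ k < 2 * b).card ≤ 1) :
    Many K M ↔
      (1 ∈ K ∨ 2 ≤ K.count 0 ∨ ∃ k ∈ K, 2 ≤ k ∧ ∃ N, k + 1 ≤ 2 * N ∧ ∀ m ∈ M, N ∣ m) := by
  classical
  constructor
  · intro hmany
    by_contra hno
    rw [not_or, not_or] at hno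
    obtain ⟨h1, h0, hex⟩ := hno
    have h0' : K.count 0 ≤ 1 := by omega
    obtain ⟨T, hT, hR, hTK, hn⟩ := hmany ((b + 1) ^ (K.map (· + 1)).sum + 1)
    rcases Nat.le_one_iff_eq_zero_or_eq_one.1 hK with hc | hc
    · rw [Multiset.card_eq_zero] at hc
      obtain ⟨m, hm⟩ := hne
      refine Asy_none K m b (hM m hm).2 h0' ?_ ⟨T, hT, hR, hTK, hn m hm⟩
      intro k hk hk0
      by_contra hlt
      have hmem : k ∈ K.filter fun k => 0 < k ∧ k < 2 * b :=
        Multiset.mem_filter.2 ⟨hk, Nat.pos_of_ne_zero hk0, not_le.1 hlt⟩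
      rw [hc] at hmem
      exact Multiset.notMem_zero _ hmem
    · rw [Multiset.card_eq_one] at hc
      obtain ⟨k0, hk0⟩ := hc
      have hmem : k0 ∈ K.filter fun k => 0 < k ∧ k < 2 * b := by
        rw [hk0]
        exact Multiset.mem_singleton_self _
      obtain ⟨hk0K, hpos, hlt⟩ := Multiset.mem_filter.1 hmem
      have hk02 : 2 ≤ k0 := by
        have : k0 ≠ 1 := fun h => h1 (h ▸ hk0K)
        omega
      have hcount : K.count k0 = 1 := by
        have h2 : (K.filter fun k => 0 < k ∧ k < 2 * b).count k0 = K.count k0 :=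
          Multiset.count_filter_of_pos (p := fun k => 0 < k ∧ k < 2 * b) ⟨hpos, hlt⟩
        rw [hk0, Multiset.count_singleton_self] at h2
        exact h2.symm
      have hothers : ∀ k ∈ K, k ≠ 0 → k = k0 ∨ 2 * b ≤ k := by
        intro k hk hkne
        by_contra hcon
        rw [not_or] at hcon
        have hmem' : k ∈ K.filter fun k => 0 < k ∧ k < 2 * b :=
          Multiset.mem_filter.2 ⟨hk, Nat.pos_of_ne_zero hkne, not_le.1 hcon.2⟩
        rw [hk0, Multiset.mem_singleton] at hmem'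
        exact hcon.1 hmem'
      subst hTK
      obtain ⟨N, hN, hb⟩ := nec_two T hR b k0 hk02 hcount hothers h0'
      apply hex
      refine ⟨k0, hk0K, hk02, N, hN, ?_⟩
      intro m hm
      by_contra hnd
      have h2 : (T.2.toFinset.filter fun s => Bad s ∧ T.2.count s = m).card ≤
          (T.2.toFinset.filter fun s => Bad s ∧ T.2.count s ≤ b ∧ ¬ N ∣ T.2.count s).card := by
        apply Finset.card_le_card
        intro s hs
        rw [Finset.mem_filter] at hs ⊢
        exact ⟨hs.1, hs.2.1, by rw [hs.2.2]; exact (hM m hm).2, by rw [hs.2.2]; exact hnd⟩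
      have h3 := ((hn m hm).trans h2).trans hb
      omega
  · intro h n
    obtain ⟨T, hT, hR, hTK, _, hn⟩ := suff K M (fun m hm => (hM m hm).1) h n
    exact ⟨T, hT, hR, hTK, hn⟩

theorem thresh (K : Multiset ℕ) (m : ℕ) (hm : 1 ≤ m) :
    Many K {m} ↔ (1 ∈ K ∨ 2 ≤ K.count 0 ∨ ∃ k ∈ K, 2 ≤ k ∧ k + 1 ≤ 2 * m) := by
  classical
  constructor
  · intro hmany
    by_contra hno
    rw [not_or, not_or] at hno
    obtain ⟨h1, h0, hex⟩ := hno
    obtain ⟨T, hT, hR, hTK, hn⟩ := hmany ((m + 1) ^ (K.map (· + 1)).sum + 1)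
    refine Asy_none K m m le_rfl (by omega) ?_
      ⟨T, hT, hR, hTK, hn m (Finset.mem_singleton_self m)⟩
    intro k hk hk0
    by_contra hlt
    have hk1 : k ≠ 1 := fun h => h1 (h ▸ hk)
    exact hex ⟨k, hk, by omega, by omega⟩
  · intro h n
    have h' : 1 ∈ K ∨ 2 ≤ K.count 0 ∨
        ∃ k ∈ K, 2 ≤ k ∧ ∃ N, k + 1 ≤ 2 * N ∧ ∀ m' ∈ ({m} : Finset ℕ), N ∣ m' := by
      rcases h with h | h | ⟨k, hk, hk2, hkm⟩
      · exact Or.inl h
      · exact Or.inr (Or.inl h)
      · refine Or.inr (Or.inr ⟨k, hk, hk2, m, hkm, ?_⟩)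
        intro m' hm'
        rw [Finset.mem_singleton] at hm'
        rw [hm']
    obtain ⟨T, hT, hR, hTK, _, hn⟩ := suff K {m}
      (fun m' hm' => by rw [Finset.mem_singleton] at hm'; rw [hm']; exact hm) h' n
    exact ⟨T, hT, hR, hTK, hn⟩

end Pool.Agent.H21.JP
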