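import Pool.Agent.H21.JN.Interp

/-!
# Module RtA (about 110 lines): the roots covered by factors of the same degree

PROOFS. `roots_all`: `R` from `roots_card`; if `eval (pt p r) f = 0` and `r ∉ R` then `line p f` has `e + 1` different roots (`eval_line`) but degree at most `e` (`line_deg`), and
it is not zero (`h2`, `line_coeff`), a contradiction. `dvd_card`: choose for every `r ∈ R` a factor `F r ∈ Φ` with `eval (pt p r) (F r) = 0`. By `hcop`, for `r, r' ∈ R`: `F r'` vanishes at `r`
iff `F r ∣ F r'` (if `F r ∣ F r'` then it vanishes; if not, `hcop`), iff `Associated (F r) (F r')` (both irreducible: `Irreducible.dvd_symm`, `dvd_dvd_iff_associated`).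
Consider the map `r ↦ Associates.mk (F r)` on `R` (`Finset.card_eq_sum_card_fiberwise` with the image as target). The fibre of the class of `F r0` is
`{r ∈ R | F r0 ∣ F r ∧ F r ∣ F r0} = {r ∈ R | eval (pt p r) (F r0) = 0}`, and this is the set of all roots of `F r0` (`hR`: all the roots of `F r0` are in `R`), of cardinality `N` by
`roots_all` and `hdeg`. So `R.card = N * (number of classes)`.
-/

namespace Pool.Agent.H21.JP

open MvPolynomial Pool.Agent.H4.JK Pool.Agent.H21.JN

variable {I : Type} [Fintype I] [DecidableEq I]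

theorem roots_all {f : MvPolynomial I ℂ} {e : ℕ} (hf : f.IsHomogeneous e)
    {p : (I → ℂ) × (I → ℂ)} (h2 : eval p.2 f ≠ 0)
    (h3 : ∀ t, eval (pt p t) f = 0 → (Polynomial.derivative (line p f)).eval t ≠ 0) :
    ∃ R : Finset ℂ, R.card = e ∧ ∀ r, r ∈ R ↔ eval (pt p r) f = 0 := by
  obtain ⟨R, hR1, hR2⟩ := roots_card hf h2 h3
  have hne : line p f ≠ 0 := by
    intro h0
    apply h2
    rw [← line_coeff hf p, h0, Polynomial.coeff_zero]
  have hsub : R ⊆ (line p f).roots.toFinset := by
    intro r hr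
    rw [Multiset.mem_toFinset, Polynomial.mem_roots hne, Polynomial.IsRoot.def, eval_line]
    exact hR2 r hr
  have hcard : (line p f).roots.toFinset.card ≤ R.card := by
    calc (line p f).roots.toFinset.card ≤ Multiset.card (line p f).roots :=
          Multiset.toFinset_card_le _
      _ ≤ (line p f).natDegree := Polynomial.card_roots' _
      _ ≤ e := line_deg hf p
      _ = R.card := hR1.symm
  have heq : R = (line p f).roots.toFinset := Finset.eq_of_subset_of_card_le hsub hcard
  refine ⟨R, hR1, fun r => ⟨hR2 r, fun hr => ?_⟩⟩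
  rw [heq, Multiset.mem_toFinset, Polynomial.mem_roots hne, Polynomial.IsRoot.def, eval_line]
  exact hr

theorem dvd_card {p : (I → ℂ) × (I → ℂ)} (Φ : Set (MvPolynomial I ℂ)) (N : ℕ) (R : Finset ℂ)
    (hirr : ∀ f ∈ Φ, Irreducible f) (hhom : ∀ f ∈ Φ, f.IsHomogeneous f.totalDegree)
    (h2 : ∀ f ∈ Φ, eval p.2 f ≠ 0)
    (h3 : ∀ f ∈ Φ, ∀ t, eval (pt p t) f = 0 → (Polynomial.derivative (line p f)).eval t ≠ 0)
    (hcop : ∀ f ∈ Φ, ∀ f' ∈ Φ, ¬ f ∣ f' → ∀ t, eval (pt p t) f = 0 → eval (pt p t) f' ≠ 0)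
    (hcov : ∀ r ∈ R, ∃ f ∈ Φ, eval (pt p r) f = 0)
    (hR : ∀ f ∈ Φ, ∀ r ∈ R, eval (pt p r) f = 0 →
      f.totalDegree = N ∧ ∀ r', eval (pt p r') f = 0 → r' ∈ R) : N ∣ R.card := by
  classical
  have hch : ∀ r : ℂ, ∃ f : MvPolynomial I ℂ, r ∈ R → f ∈ Φ ∧ eval (pt p r) f = 0 := by
    intro r
    by_cases hr : r ∈ R
    · obtain ⟨f, hf, hf0⟩ := hcov r hr
      exact ⟨f, fun _ => ⟨hf, hf0⟩⟩
    · exact ⟨0, fun h => absurd h hr⟩
  choose F hF using hch
  set g : ℂ → Associates (MvPolynomial I ℂ) := fun r => Associates.mk (F r) with hg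
  have hfib : ∀ b ∈ R.image g, (R.filter (fun r => g r = b)).card = N := by
    intro b hb
    obtain ⟨r0, hr0, rfl⟩ := Finset.mem_image.mp hb
    obtain ⟨hf, hf0⟩ := hF r0 hr0
    obtain ⟨hN, hall⟩ := hR (F r0) hf r0 hr0 hf0
    obtain ⟨R0, hR0, hmem⟩ := roots_all (hhom _ hf) (h2 _ hf) (h3 _ hf)
    have hset : R.filter (fun r => g r = g r0) = R0 := by
      ext r
      rw [Finset.mem_filter, hmem]
      constructor
      · rintro ⟨hr, hgr⟩
        have has : Associated (F r) (F r0) := Associates.mk_eq_mk_iff_associated.mp hgr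
        obtain ⟨c, hc⟩ := has.dvd
        rw [hc, map_mul, (hF r hr).2, zero_mul]
      · intro hr
        have hrR : r ∈ R := hall r hr
        refine ⟨hrR, ?_⟩
        obtain ⟨hfr, hfr0⟩ := hF r hrR
        have hdvd : F r0 ∣ F r := by
          by_contra hnd
          exact hcop (F r0) hf (F r) hfr hnd r hr hfr0
        exact (Associates.mk_eq_mk_iff_associated.mpr
          ((hirr _ hf).associated_of_dvd (hirr _ hfr) hdvd)).symm
    rw [hset, hR0, hN]
  have hsum := Finset.card_eq_sum_card_fiberwise (f := g) (s := R) (t := R.image g)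
    (fun r hr => Finset.mem_coe.mpr (Finset.mem_image_of_mem g hr))
  rw [Finset.sum_congr rfl hfib, Finset.sum_const, smul_eq_mul] at hsum
  exact ⟨(R.image g).card, by rw [hsum, mul_comm]⟩

end Pool.Agent.H21.JP
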