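import Pool.Agent.H21.JN.Grp
import Pool.Agent.H21.JP.RtA

/-!
# Module Att2 (about 230 lines): a factor attached to every exceptional bad group

PROOF. Copy the proof of `att_at` (Pool/Agent/H21/JN/Grp.lean) up to `hsame`. New form of `hex`: for every `s` there is `f` such that, if `Exc T m N s`, then
`f ∈ factors (GG 𝒜)`, `f.totalDegree ≠ N` and `∃ r, sizesAt S (some (-r)) = s ∧ eval (pt p r) f = 0`. Proof: let `Exc T m N s` and suppose there is no such `f`. Let `R` be the finite set of the
`r` with `some (-r) ∈ eigs S` and `sizesAt S (some (-r)) = s` (a preimage under the injective map `r ↦ some (-r)`); `R.card = T.2.count s` (`hT2`,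
`Multiset.count_map`, `hEr`: every eigenvalue is some `some (-r)`). `dvd_card` for the set `Φ` of all factors of `GG 𝒜`: `hcov` is `hroot` (`s` is bad); `hR`: if `f ∈ Φ` has the root `r ∈ R` then
`f.totalDegree = N` by the assumption, and all roots `r'` of `f` have the same sizes (`hsame`), so they are in `R` (`some (-r') ∈ eigs S` because the sizes are not empty: `s` is
bad, `sizesAt_of_notMem`). So `N ∣ T.2.count s`, a contradiction to `Exc`. The remaining parts (degree, weight, different groups, dimension, gradients) are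
proved as in `att_at`.
-/

namespace Pool.Agent.H21.JP

open MvPolynomial Module Pool.Agent.H4.JK Pool.Agent.H21.JN

variable {I : Type} [Fintype I] [DecidableEq I]

open Classical in
/-- `s` is a bad group of multiplicity at most `m`, not divisible by `N`. -/
def Exc (T : Multiset ℕ × Multiset (Multiset ℕ)) (m N : ℕ) (s : Multiset ℕ) : Prop :=
  s ∈ T.2 ∧ Bad s ∧ T.2.count s ≤ m ∧ ¬ N ∣ T.2.count s

/-- The conditions on the factors attached to the exceptional bad groups. -/
structure Stat2 (𝒜 : Matrix I I (MvPolynomial I ℂ)) (T : Multiset ℕ × Multiset (Multiset ℕ))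
    (m N : ℕ) (F : Multiset ℕ → MvPolynomial I ℂ) : Prop where
  fac : ∀ s, Exc T m N s → F s ∈ UniqueFactorizationMonoid.factors (GG 𝒜)
  deg : ∀ s, Exc T m N s → (F s).totalDegree ≤ m
  dne : ∀ s, Exc T m N s → (F s).totalDegree ≠ N
  wt : ∀ s, Exc T m N s → ∃ χ : I → ℂ, ∀ j, gj 𝒜 (F s) j = C (χ j) * F s
  ne : ∀ s, Exc T m N s → ∀ s', Exc T m N s' → s ≠ s' → ¬ F s ∣ F s'

theorem att2_at {𝒜 : Matrix I I (MvPolynomial I ℂ)} (hA : 𝒜.transpose = -𝒜)
    (hlin : Lin 𝒜) {p : (I → ℂ) × (I → ℂ)} (T : Multiset ℕ × Multiset (Multiset ℕ))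
    (Q : ℕ) (hQ : ∀ s ∈ T.2, ∀ m ∈ s, m < Q)
    (hfact : ∀ f ∈ UniqueFactorizationMonoid.factors (GG 𝒜), Fact 𝒜 f Q p)
    (hnz : ∀ f ∈ UniqueFactorizationMonoid.factors (GG 𝒜), eval p.2 f ≠ 0)
    (hcop : ∀ f ∈ UniqueFactorizationMonoid.factors (GG 𝒜),
      ∀ f' ∈ UniqueFactorizationMonoid.factors (GG 𝒜), ¬ f ∣ f' → ∀ t, eval (pt p t) f = 0 →
        eval (pt p t) f' ≠ 0)
    (hrank : ∀ y : I → ℂ, (𝒜.map (eval y)).rank ≤ (𝒜.map (eval p.2)).rank)
    (hT : HasType (mform (𝒜.map (eval p.1))) (mform (𝒜.map (eval p.2))) T) (m N : ℕ) :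
    ∃ F : Multiset ℕ → MvPolynomial I ℂ, Stat2 𝒜 T m N F ∧
      ∃ L : Submodule ℂ (I → ℂ), finrank ℂ L ≤ (T.1.map (· + 1)).sum ∧
        ∀ s, Exc T m N s → grd (F s) p.1 ∈ L := by
  classical
  obtain ⟨ι, hι, bl, hpos, hty, hdec⟩ := hT
  have hdec' := hdec
  obtain ⟨φ, hφ⟩ := hdec
  set A := 𝒜.map (eval p.1) with hAdef
  set B := 𝒜.map (eval p.2) with hBdef
  set S := (Finset.univ : Finset ι).val.map bl with hS
  have hL : LL 𝒜 p = pen A B := line_lin hlin p
  have hT1 : T.1 = kronPart S := by rw [← hty]; rfl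
  have hT2 : T.2 = (eigs S).val.map (sizesAt S) := by rw [← hty]; rfl
  -- sizes are positive and bounded
  have hsz : ∀ μ, ∀ m ∈ sizesAt S μ, 1 ≤ m ∧ m < Q := by
    intro μ m hm
    have hμ : μ ∈ eigs S := by
      by_contra h
      rw [sizesAt_of_notMem S μ h] at hm
      simp at hm
    constructor
    · simp only [sizesAt, Multiset.mem_filterMap] at hm
      obtain ⟨b, hb, hb2⟩ := hm
      obtain ⟨i, -, rfl⟩ := Multiset.mem_map.1 hb
      rcases hbi : bl i with k | ⟨ν, m'⟩
      · rw [hbi] at hb2; simp at hb2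
      · rw [hbi] at hb2
        simp only at hb2
        split_ifs at hb2
        simp only [Option.some.injEq] at hb2
        subst hb2
        have := hpos i
        rw [hbi] at this
        exact this
    · apply hQ (sizesAt S μ) _ m hm
      rw [hT2]
      exact Multiset.mem_map_of_mem _ hμ
  have hfE : ∀ r q, 1 ≤ q → finrank ℂ (Es (LL 𝒜 p) r q) = (kronPart S).card +
      2 * ((sizesAt S (some (-r))).filter (q ≤ ·)).card := by
    intro r q hq
    rw [hL]
    exact finrank_Es φ hφ hpos r q hq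
  have hfZ : ∀ r, finrank ℂ (Zs (LL 𝒜 p) r) = (kronPart S).card := by
    intro r
    rw [hL]
    exact finrank_Zs φ hφ hpos r
  -- a value which is not an eigenvalue
  obtain ⟨t0, ht0⟩ : ∃ t : ℂ, some (-t) ∉ eigs S := by
    have h1 : (((eigs S).preimage (fun t : ℂ => some (-t))
      (by intro x _ y _ hxy; simpa using hxy) : Finset ℂ) : Set ℂ) ≠ Set.univ := by
      intro h2
      exact Set.infinite_univ (h2 ▸ Finset.finite_toSet _)
    obtain ⟨t, ht⟩ := (Set.ne_univ_iff_exists_notMem _).1 h1
    exact ⟨t, fun h3 => ht (Finset.mem_coe.2 (Finset.mem_preimage.2 h3))⟩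
  have hEt0 : finrank ℂ (Es (LL 𝒜 p) t0 1) = (kronPart S).card := by
    rw [hfE t0 1 le_rfl, sizesAt_of_notMem S _ ht0]
    simp
  -- infinity is not an eigenvalue
  have hinf : none ∉ eigs S := by
    intro h
    have h1 := finrank_inf hdec' hpos h
    have h2 : Es (LL 𝒜 p) t0 1 = LinearMap.ker (𝒜.map (eval (pt p t0))).mulVecLin := by
      ext v
      rw [LinearMap.mem_ker, Matrix.mulVecLin_apply]
      constructor
      · intro hv
        funext j
        exact Es_one hv j
      · intro hv
        apply mem_Es_one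
        intro j
        exact congrFun hv j
    rw [h2] at hEt0
    have h3 := LinearMap.finrank_range_add_finrank_ker B.mulVecLin
    have h4 := LinearMap.finrank_range_add_finrank_ker (𝒜.map (eval (pt p t0))).mulVecLin
    have h5 := hrank (pt p t0)
    have h6 : B.rank = finrank ℂ (LinearMap.range B.mulVecLin) := rfl
    rw [← hS] at h1
    have h7 : (𝒜.map (eval (pt p t0))).rank =
      finrank ℂ (LinearMap.range (𝒜.map (eval (pt p t0))).mulVecLin) := rfl
    rw [h6, h7] at h5
    omega
  have hEr : ∀ μ ∈ eigs S, ∃ r : ℂ, μ = some (-r) := by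
    intro μ hμ
    rcases μ with _ | μ
    · exact absurd hμ hinf
    · exact ⟨-μ, by rw [neg_neg]⟩
  -- the numbers at a bad eigenvalue
  have hnum : ∀ r, Bad (sizesAt S (some (-r))) → ∃ m, 1 ≤ m ∧
      Es (LL 𝒜 p) r (m + 1) ≤ Zs (LL 𝒜 p) r ∧
      finrank ℂ (Zs (LL 𝒜 p) r) + 3 ≤ finrank ℂ (Es (LL 𝒜 p) r m) := by
    rintro r ⟨m, hm1, hm2⟩
    have hm0 : 1 ≤ m := by
      have : m ∈ sizesAt S (some (-r)) := Multiset.one_le_count_iff_mem.1 (by omega)
      exact (hsz _ m this).1
    have h1 := hfE r m hm0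
    have h2 := hfZ r
    have h3 := count_le_card_filter (sizesAt S (some (-r))) m
    refine ⟨m, hm0, ?_, ?_⟩
    · rw [hL]
      exact Es_le_Zs φ hφ r (m + 1) (by omega) (fun m' hm' => Nat.lt_succ_of_le (hm2 m' hm'))
    · rw [h1, h2]
      omega
  have hgrad : ∀ f ∈ UniqueFactorizationMonoid.factors (GG 𝒜), ∀ r, eval (pt p r) f = 0 →
      Bad (sizesAt S (some (-r))) → grd f (pt p r) ∈ Zs (LL 𝒜 p) r := by
    intro f hf r hfr hb
    obtain ⟨m, hm0, h4, h5⟩ := hnum r hb
    exact (hfact f hf).F1 r hfr m hm0 h4 h5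
  have hroot : ∀ r, Bad (sizesAt S (some (-r))) →
      ∃ f ∈ UniqueFactorizationMonoid.factors (GG 𝒜), eval (pt p r) f = 0 := by
    intro r hb
    obtain ⟨m, hm0, h4, h5⟩ := hnum r hb
    have h6 : ¬ Es (LL 𝒜 p) r 1 ≤ Zs (LL 𝒜 p) r := by
      intro h
      have h7 := Submodule.finrank_mono ((Es_anti (LL 𝒜 p) r hm0).trans h)
      omega
    exact root_of_Es hA p r h6
  have hsame : ∀ f ∈ UniqueFactorizationMonoid.factors (GG 𝒜), ∀ r r', eval (pt p r) f = 0 →
      eval (pt p r') f = 0 → sizesAt S (some (-r')) = sizesAt S (some (-r)) := by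
    intro f hf r r' hr hr'
    apply multiset_ext_card _ _ Q (hsz _) (hsz _)
    intro q hq
    have h2 := (hfact f hf).F2 r' r hr' hr q hq
    rw [hfE r' (q + 1) (by omega), hfE r (q + 1) (by omega)] at h2
    omega
  have hinj : Function.Injective (fun r : ℂ => (some (-r) : Option ℂ)) := by
    intro x y hxy
    simpa using hxy
  -- the factors
  have hex : ∀ s : Multiset ℕ, ∃ f : MvPolynomial I ℂ, Exc T m N s →
      f ∈ UniqueFactorizationMonoid.factors (GG 𝒜) ∧ f.totalDegree ≠ N ∧
      ∃ r, sizesAt S (some (-r)) = s ∧ eval (pt p r) f = 0 := by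
    intro s
    by_cases h : Exc T m N s
    · by_contra hc
      have hc' : ∀ f ∈ UniqueFactorizationMonoid.factors (GG 𝒜), ∀ r,
          sizesAt S (some (-r)) = s → eval (pt p r) f = 0 → f.totalDegree = N := by
        intro f hf r hr hfr
        by_contra hN
        exact hc ⟨f, fun _ => ⟨hf, hN, r, hr, hfr⟩⟩
      obtain ⟨h1, h2, h3, h4⟩ := h
      apply h4
      set R : Finset ℂ := ((eigs S).filter (fun μ => s = sizesAt S μ)).preimage
        (fun t : ℂ => (some (-t) : Option ℂ)) hinj.injOn with hRdef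
      have hRmem : ∀ r, r ∈ R ↔ sizesAt S (some (-r)) = s := by
        intro r
        rw [hRdef, Finset.mem_preimage, Finset.mem_filter]
        constructor
        · exact fun h5 => h5.2.symm
        · intro h5
          refine ⟨?_, h5.symm⟩
          by_contra h6
          rw [sizesAt_of_notMem S _ h6] at h5
          rw [← h5] at h2
          obtain ⟨m', hm', -⟩ := h2
          simp at hm'
      have hRcard : R.card = T.2.count s := by
        have h5 : R.image (fun r : ℂ => (some (-r) : Option ℂ)) =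
            (eigs S).filter (fun μ => s = sizesAt S μ) := by
          ext μ
          rw [Finset.mem_image]
          constructor
          · rintro ⟨r, hr, rfl⟩
            rw [hRdef, Finset.mem_preimage] at hr
            exact hr
          · intro hμ
            obtain ⟨r, rfl⟩ := hEr μ (Finset.mem_filter.1 hμ).1
            exact ⟨r, by rw [hRdef, Finset.mem_preimage]; exact hμ, rfl⟩
        rw [← Finset.card_image_of_injective R hinj, h5, hT2, Multiset.count_map]
        rfl
      rw [← hRcard]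
      apply dvd_card (p := p) {f | f ∈ UniqueFactorizationMonoid.factors (GG 𝒜)} N R
      · exact fun f hf => UniqueFactorizationMonoid.irreducible_of_factor _ hf
      · exact fun f hf => factor_hom hlin hf
      · exact hnz
      · exact fun f hf => (hfact f hf).F3
      · exact hcop
      · intro r hr
        exact hroot r (by rw [(hRmem r).1 hr]; exact h2)
      · intro f hf r hr hfr
        refine ⟨hc' f hf r ((hRmem r).1 hr) hfr, fun r' hr' => ?_⟩
        rw [hRmem, hsame f hf r r' hfr hr']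
        exact (hRmem r).1 hr
    · exact ⟨0, fun h1 => absurd h1 h⟩
  choose F hF using hex
  have hall : ∀ s, Exc T m N s → ∀ r, eval (pt p r) (F s) = 0 →
      sizesAt S (some (-r)) = s := by
    intro s hs r hr
    obtain ⟨hf, -, r0, h1, h2⟩ := hF s hs
    rw [hsame (F s) hf r0 r h2 hr, h1]
  refine ⟨F, ⟨fun s hs => (hF s hs).1, ?_, fun s hs => (hF s hs).2.1, ?_, ?_⟩,
    pull φ (fun i => KZ (bl i)), ?_, ?_⟩
  · -- the degree
    intro s hs
    obtain ⟨hf, -⟩ := hF s hs
    obtain ⟨R, hR1, hR2⟩ := roots_card (factor_hom hlin hf) (hnz _ hf) (hfact _ hf).F3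
    rw [← hR1]
    refine le_trans ?_ hs.2.2.1
    rw [hT2, Multiset.count_map]
    rw [← Finset.card_image_of_injective R hinj]
    have hsub : R.image (fun r : ℂ => (some (-r) : Option ℂ)) ⊆
        (eigs S).filter (fun μ => s = sizesAt S μ) := by
      intro μ hμ
      obtain ⟨r, hr, rfl⟩ := Finset.mem_image.1 hμ
      have h1 := hall s hs r (hR2 r hr)
      rw [Finset.mem_filter]
      refine ⟨?_, h1.symm⟩
      by_contra h2
      rw [sizesAt_of_notMem S _ h2] at h1
      have hb := hs.2.1
      rw [← h1] at hb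
      obtain ⟨m', hm', -⟩ := hb
      simp at hm'
    exact Finset.card_le_card hsub
  · -- the weight
    intro s hs
    obtain ⟨hf, -, r, h1, h2⟩ := hF s hs
    exact semi hA hlin (UniqueFactorizationMonoid.irreducible_of_factor _ hf) (hfact _ hf) h2
      (hgrad _ hf r h2 (by rw [h1]; exact hs.2.1))
  · -- different groups
    intro s hs s' hs' hne hdvd
    obtain ⟨-, -, r, h1, h2⟩ := hF s hs
    apply hne
    obtain ⟨g, hg⟩ := hdvd
    have h3 : eval (pt p r) (F s') = 0 := by rw [hg, map_mul, h2, zero_mul]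
    rw [← h1, hall s' hs' r h3]
  · -- the dimension
    rw [finrank_Zt, hT1]
  · -- the gradients
    intro s hs
    obtain ⟨hf, -⟩ := hF s hs
    have h := grad_mem (factor_hom hlin hf) (hnz _ hf) (hfact _ hf).F3
      (pull φ (fun i => KZ (bl i))) (fun r hr => by
        have h1 := hgrad _ hf r hr (by rw [hall s hs r hr]; exact hs.2.1)
        rw [hL] at h1
        exact Zs_le_Zt φ hφ r h1) 0
    have h2 : pt p 0 = p.1 := by
      funext i
      simp [pt]
    rwa [h2] at h

end Pool.Agent.H21.JP
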