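import Mathlib

/-!
# Module ExpL: exponents of the same degree in a plane
-/

namespace Pool.Agent.H21.JP

variable {I : Type} [Fintype I] [DecidableEq I]

set_option linter.unusedSectionVars false in
theorem explaux_minor {D : ℂ} (hD : D ≠ 0) {A B : I → ℂ} (hA : ∑ j, A j = D) (hB : ∑ j, B j = D)
    (hne : ∃ i, A i ≠ B i) : ∃ t0 t1, A t0 * B t1 - A t1 * B t0 ≠ 0 := by
  by_contra hc
  push Not at hc
  obtain ⟨i, hi⟩ := hne
  apply hi
  have h1 : ∑ b, (A i * B b - A b * B i) = 0 := Finset.sum_eq_zero fun b _ => hc i b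
  rw [Finset.sum_sub_distrib, ← Finset.mul_sum, ← Finset.sum_mul, hA, hB] at h1
  have h2 : D * (A i - B i) = 0 := by linear_combination h1
  exact sub_eq_zero.1 ((mul_eq_zero.1 h2).resolve_left hD)

set_option linter.unusedSectionVars false in
theorem explaux_comb {D : ℂ} (hD : D ≠ 0) {A B G : I → ℂ} (hA : ∑ j, A j = D)
    (hB : ∑ j, B j = D) (hG : ∑ j, G j = D) {t0 t1 : I} (hm : A t0 * B t1 - A t1 * B t0 ≠ 0)
    (h : ∀ j, A t0 * B t1 * G j - A t0 * G t1 * B j - B t0 * A t1 * G j + B t0 * G t1 * A j +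
      G t0 * A t1 * B j - G t0 * B t1 * A j = 0) :
    ∃ s : ℂ, ∀ j, G j = s * A j + (1 - s) * B j := by
  set m := A t0 * B t1 - A t1 * B t0 with hmdef
  set s := (G t0 * B t1 - G t1 * B t0) / m with hs
  set t := (A t0 * G t1 - A t1 * G t0) / m with ht
  have hs1 : s * m = G t0 * B t1 - G t1 * B t0 := div_mul_cancel₀ _ hm
  have ht1 : t * m = A t0 * G t1 - A t1 * G t0 := div_mul_cancel₀ _ hm
  have h1 : ∀ j, G j = s * A j + t * B j := by
    intro j
    apply mul_right_cancel₀ hm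
    have := h j
    linear_combination this - A j * hs1 - B j * ht1
  have h2 : D = (s + t) * D := by
    calc D = ∑ j, G j := hG.symm
      _ = ∑ j, (s * A j + t * B j) := Finset.sum_congr rfl fun j _ => h1 j
      _ = s * D + t * D := by rw [Finset.sum_add_distrib, ← Finset.mul_sum, ← Finset.mul_sum,
          hA, hB]
      _ = (s + t) * D := by ring
  have h3 : s + t = 1 := by
    have h4 : (s + t - 1) * D = 0 := by linear_combination -h2
    exact sub_eq_zero.1 ((mul_eq_zero.1 h4).resolve_right hD)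
  refine ⟨s, fun j => ?_⟩
  rw [h1 j]
  linear_combination (B j) * h3

theorem card_le_line {E : Finset (I →₀ ℕ)} (D : ℕ) (hE : ∀ α ∈ E, ∑ i, α i = D)
    (h : ∀ α : Fin 3 → I →₀ ℕ, (∀ b, α b ∈ E) → ∀ τ : Fin 3 → I,
      (Matrix.of fun a b => ((α b (τ a) : ℕ) : ℂ)).det = 0) : E.card ≤ D + 1 := by
  by_cases hcard : E.card ≤ 1
  · omega
  push Not at hcard
  obtain ⟨α, hα, β, hβ, hαβ⟩ := Finset.one_lt_card.1 hcard
  have hDpos : D ≠ 0 := by
    intro h0
    apply hαβ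
    have hz : ∀ γ ∈ E, γ = 0 := by
      intro γ hγ
      ext i
      have h1 := hE γ hγ
      rw [h0] at h1
      exact (Finset.sum_eq_zero_iff.1 h1) i (Finset.mem_univ i)
    rw [hz α hα, hz β hβ]
  have hDC : (D : ℂ) ≠ 0 := Nat.cast_ne_zero.2 hDpos
  have hsum : ∀ γ ∈ E, ∑ i, ((γ i : ℕ) : ℂ) = D := by
    intro γ hγ
    rw [← hE γ hγ, Nat.cast_sum]
  obtain ⟨i, hi⟩ : ∃ i, α i ≠ β i := by
    by_contra hc
    push Not at hc
    exact hαβ (Finsupp.ext hc)
  have hiC : ((α i : ℕ) : ℂ) ≠ ((β i : ℕ) : ℂ) := fun hc => hi (Nat.cast_injective hc)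
  obtain ⟨t0, t1, hm⟩ := explaux_minor hDC (hsum α hα) (hsum β hβ) ⟨i, hiC⟩
  have hcomb : ∀ γ ∈ E, ∃ s : ℂ, ∀ j, ((γ j : ℕ) : ℂ) =
      s * ((α j : ℕ) : ℂ) + (1 - s) * ((β j : ℕ) : ℂ) := by
    intro γ hγ
    refine explaux_comb hDC (hsum α hα) (hsum β hβ) (hsum γ hγ) hm ?_
    intro j
    have h1 := h ![α, β, γ] (by intro b; fin_cases b <;> assumption) ![t0, t1, j]
    rw [Matrix.det_fin_three] at h1
    simp only [Matrix.of_apply, Matrix.cons_val_zero, Matrix.cons_val_one, Matrix.cons_val] at h1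
    linear_combination h1
  have hinj : Set.InjOn (fun γ : I →₀ ℕ => γ i) (E : Set (I →₀ ℕ)) := by
    intro γ hγ γ' hγ' he
    obtain ⟨s, hs⟩ := hcomb γ hγ
    obtain ⟨s', hs'⟩ := hcomb γ' hγ'
    have h1 : ((γ i : ℕ) : ℂ) = ((γ' i : ℕ) : ℂ) := congrArg _ he
    rw [hs i, hs' i] at h1
    have h2 : (s - s') * (((α i : ℕ) : ℂ) - ((β i : ℕ) : ℂ)) = 0 := by linear_combination h1
    have h3 : s = s' := sub_eq_zero.1 ((mul_eq_zero.1 h2).resolve_right (sub_ne_zero.2 hiC))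
    ext j
    have h4 : ((γ j : ℕ) : ℂ) = ((γ' j : ℕ) : ℂ) := by rw [hs j, hs' j, h3]
    exact Nat.cast_injective h4
  have hmaps : ∀ γ ∈ E, (fun γ : I →₀ ℕ => γ i) γ ∈ Finset.range (D + 1) := by
    intro γ hγ
    rw [Finset.mem_range]
    have h1 := hE γ hγ
    have h2 : γ i ≤ ∑ i, γ i := Finset.single_le_sum (fun _ _ => Nat.zero_le _)
      (Finset.mem_univ i)
    simp only
    omega
  calc E.card ≤ (Finset.range (D + 1)).card := Finset.card_le_card_of_injOn _ hmaps hinj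
    _ = D + 1 := Finset.card_range _

end Pool.Agent.H21.JP
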