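import Pool.Agent.H21.JP.Att2

/-!
# Module Frq2 (about 110 lines): one choice of the factors for frequently many pairs

PROOF. Copy the proof of `exists_fix` (Pool/Agent/H21/JN/Frq.lean) with `att2_at`, and with one more generic property (`hcop`): for all pairs `f, f'` in the finite set of the
factors, if `¬ f ∣ f'` then for generic `p` they have no common root on the line (`gen_line'`, JKm, `pt`); `Filter.eventually_all_finset` twice.
`Sg = T.2.toFinset.filter (Exc T m N)`.
-/

namespace Pool.Agent.H21.JP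

open MvPolynomial Module Pool.Agent.H4.JK Pool.Agent.H21.JN

variable {I : Type} [Fintype I] [DecidableEq I]

theorem exists_fix2 {g : Type} [LieRing g] [LieAlgebra ℂ g] (b : Basis I ℂ g)
    (T : Multiset ℕ × Multiset (Multiset ℕ)) (hinv : HasInvariant g T) (m N : ℕ) :
    ∃ F : Multiset ℕ → MvPolynomial I ℂ, Stat2 (SM b) T m N F ∧
      ∃ᶠ p in gen I, ∃ L : Submodule ℂ (I → ℂ), finrank ℂ L ≤ (T.1.map (· + 1)).sum ∧
        ∀ s, Exc T m N s → grd (F s) p.1 ∈ L := by
  classical
  obtain ⟨Q, hQ⟩ : ∃ Q : ℕ, ∀ s ∈ T.2, ∀ m ∈ s, m < Q := by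
    refine ⟨(T.2.map Multiset.sum).sum + 1, ?_⟩
    intro s hs m hm
    have h1 := Multiset.single_le_sum (fun x _ => Nat.zero_le x) m hm
    have h2 := Multiset.single_le_sum (fun x _ => Nat.zero_le x) s.sum
      (Multiset.mem_map_of_mem Multiset.sum hs)
    omega
  have h1 : ∀ᶠ p in gen I, ∀ f ∈ (UniqueFactorizationMonoid.factors (GG (SM b))).toFinset,
      Fact (SM b) f Q p := by
    rw [Filter.eventually_all_finset]
    intro f hf
    rw [Multiset.mem_toFinset] at hf
    exact gen_fact (SM_skew b) (SM_jac b) (SM_lin b)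
      (UniqueFactorizationMonoid.irreducible_of_factor f hf) Q
  have h2 : ∀ᶠ p in gen I, ∀ f ∈ (UniqueFactorizationMonoid.factors (GG (SM b))).toFinset,
      eval p.2 f ≠ 0 := by
    rw [Filter.eventually_all_finset]
    intro f hf
    rw [Multiset.mem_toFinset] at hf
    exact gen_snd (UniqueFactorizationMonoid.irreducible_of_factor f hf).ne_zero
  have h2' : ∀ᶠ p in gen I, ∀ f ∈ (UniqueFactorizationMonoid.factors (GG (SM b))).toFinset,
      ∀ f' ∈ (UniqueFactorizationMonoid.factors (GG (SM b))).toFinset,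
        ¬ f ∣ f' → ∀ t, eval (pt p t) f = 0 → eval (pt p t) f' ≠ 0 := by
    rw [Filter.eventually_all_finset]
    intro f hf
    rw [Filter.eventually_all_finset]
    intro f' _
    rw [Multiset.mem_toFinset] at hf
    by_cases hd : f ∣ f'
    · exact Filter.Eventually.of_forall fun p hn => absurd hd hn
    · filter_upwards [gen_line' (UniqueFactorizationMonoid.irreducible_of_factor f hf) hd]
        with p hp _ t ht
      exact hp t ht
  obtain ⟨Sg, hSg⟩ : ∃ Sg : Finset (Multiset ℕ),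
      Sg = T.2.toFinset.filter (fun s => Exc T m N s) := ⟨_, rfl⟩
  obtain ⟨Ph, hPh⟩ : ∃ Ph : Finset (MvPolynomial I ℂ),
      Ph = (UniqueFactorizationMonoid.factors (GG (SM b))).toFinset := ⟨_, rfl⟩
  have hmS : ∀ s, Exc T m N s → s ∈ Sg := by
    intro s a1
    rw [hSg, Finset.mem_filter, Multiset.mem_toFinset]
    exact ⟨a1.1, a1⟩
  let ext : (Sg → Ph) → Multiset ℕ → MvPolynomial I ℂ := fun G s =>
    if h : s ∈ Sg then (G ⟨s, h⟩ : MvPolynomial I ℂ) else 0
  let P : (Sg → Ph) → (I → ℂ) × (I → ℂ) → Prop := fun G p =>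
    Stat2 (SM b) T m N (ext G) ∧ ∃ L : Submodule ℂ (I → ℂ),
      finrank ℂ L ≤ (T.1.map (· + 1)).sum ∧
        ∀ s, Exc T m N s → grd (ext G s) p.1 ∈ L
  have h3 : ∀ᶠ p in gen I, ∃ G, P G p := by
    filter_upwards [h1, h2, h2', gen_rank (SM b), gen_hasType b hinv] with p a1 a2 a2' a3 a4
    obtain ⟨F, c1, L, c2, c3⟩ := att2_at (SM_skew b) (SM_lin b) T Q hQ
      (fun f hf => a1 f (Multiset.mem_toFinset.2 hf))
      (fun f hf => a2 f (Multiset.mem_toFinset.2 hf))
      (fun f hf f' hf' => a2' f (Multiset.mem_toFinset.2 hf) f' (Multiset.mem_toFinset.2 hf'))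
      a3 a4 m N
    have hmem : ∀ s : Sg, F s ∈ Ph := by
      rintro ⟨s, hs⟩
      rw [hSg, Finset.mem_filter, Multiset.mem_toFinset] at hs
      rw [hPh, Multiset.mem_toFinset]
      exact c1.fac s hs.2
    have hext : ∀ s, Exc T m N s → ext (fun s => ⟨F s, hmem s⟩) s = F s := by
      intro s d1
      show (if h : s ∈ Sg then F s else 0) = F s
      rw [dif_pos (hmS s d1)]
    refine ⟨fun s => ⟨F s, hmem s⟩, ⟨?_, ?_, ?_, ?_, ?_⟩, L, c2, ?_⟩
    · intro s d1
      rw [hext s d1]
      exact c1.fac s d1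
    · intro s d1
      rw [hext s d1]
      exact c1.deg s d1
    · intro s d1
      rw [hext s d1]
      exact c1.dne s d1
    · intro s d1
      rw [hext s d1]
      exact c1.wt s d1
    · intro s d1 s' e1 hne
      rw [hext s d1, hext s' e1]
      exact c1.ne s d1 s' e1 hne
    · intro s d1
      rw [hext s d1]
      exact c3 s d1
  obtain ⟨G, hG⟩ : ∃ G, ∃ᶠ p in gen I, P G p := by
    by_contra hno
    have h4 : ∀ G, ∀ᶠ p in gen I, ¬ P G p := by
      intro G
      rw [← Filter.not_frequently]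
      exact fun h => hno ⟨G, h⟩
    have h5 : ∀ᶠ p in gen I, ∀ G, ¬ P G p := Filter.eventually_all.2 h4
    obtain ⟨p, ⟨G, hp⟩, hn⟩ := (h3.and h5).exists
    exact hn G hp
  obtain ⟨p0, hp0⟩ := hG.exists
  exact ⟨ext G, hp0.1, hG.mono fun p hp => hp.2⟩

end Pool.Agent.H21.JP
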