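import Mathlib

/-!
# Module LinA (about 60 lines): a vector in a plane meeting many planes

PROOF. If some `t ∈ S` has a relation with `b = 0` then `a ≠ 0` and `e = (c / a) • u + (d / a) • w`. Otherwise, for all `t ∈ S` the vector `z t` is in the span `U` of
`e, u, w`, `finrank U ≤ 3` (`finrank_span_le_card` or `finrank_range_le_card`). Choose three different `t0, t1, t2 ∈ S` (`Set.Infinite`). By `he` and `hz` the
four vectors `e, z t0, z t1, z t2` are linearly independent and lie in `U`, a contradiction.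
-/

namespace Pool.Agent.H21.JP

theorem mem_plane {V : Type} [AddCommGroup V] [Module ℂ V] (e : V) (z : ℂ → V) (he : e ≠ 0)
    (hz : ∀ t0 t1 t2 : ℂ, t0 ≠ t1 → t0 ≠ t2 → t1 ≠ t2 → ∀ a b c g : ℂ,
      a • e + b • z t0 + c • z t1 + g • z t2 = 0 → b = 0 ∧ c = 0 ∧ g = 0)
    (u w : V) (S : Set ℂ) (hS : S.Infinite)
    (h : ∀ t ∈ S, ∃ a b c d : ℂ, (a ≠ 0 ∨ b ≠ 0) ∧ a • e + b • z t = c • u + d • w) :
    ∃ c d : ℂ, e = c • u + d • w := by
  classical
  by_contra hcon
  have hzt : ∀ t ∈ S, z t ∈ Submodule.span ℂ ((({e, u, w} : Finset V) : Set V)) := by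
    intro t ht
    obtain ⟨a, b, c, d, hab, hrel⟩ := h t ht
    by_cases hb : b = 0
    · exfalso
      have ha : a ≠ 0 := by
        rcases hab with h1 | h1
        · exact h1
        · exact absurd hb h1
      apply hcon
      refine ⟨a⁻¹ * c, a⁻¹ * d, ?_⟩
      rw [hb, zero_smul, add_zero] at hrel
      rw [mul_smul, mul_smul, ← smul_add, ← hrel, smul_smul, inv_mul_cancel₀ ha, one_smul]
    · have h1 : b • z t = c • u + d • w - a • e := by
        rw [← hrel]; abel
      have h2 : z t = b⁻¹ • (c • u + d • w - a • e) := by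
        rw [← h1, smul_smul, inv_mul_cancel₀ hb, one_smul]
      rw [h2]
      have me : e ∈ Submodule.span ℂ ((({e, u, w} : Finset V) : Set V)) :=
        Submodule.subset_span (by simp)
      have mu : u ∈ Submodule.span ℂ ((({e, u, w} : Finset V) : Set V)) :=
        Submodule.subset_span (by simp)
      have mw : w ∈ Submodule.span ℂ ((({e, u, w} : Finset V) : Set V)) :=
        Submodule.subset_span (by simp)
      exact Submodule.smul_mem _ _ (Submodule.sub_mem _
        (Submodule.add_mem _ (Submodule.smul_mem _ _ mu) (Submodule.smul_mem _ _ mw))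
        (Submodule.smul_mem _ _ me))
  obtain ⟨t0, ht0, -⟩ := hS.exists_notMem_finset (∅ : Finset ℂ)
  obtain ⟨t1, ht1, h01⟩ := hS.exists_notMem_finset ({t0} : Finset ℂ)
  obtain ⟨t2, ht2, h02⟩ := hS.exists_notMem_finset ({t0, t1} : Finset ℂ)
  have n01 : t0 ≠ t1 := fun hh => h01 (by simp [hh])
  have n02 : t0 ≠ t2 := fun hh => h02 (by simp [hh])
  have n12 : t1 ≠ t2 := fun hh => h02 (by simp [hh])
  have hli : LinearIndependent ℂ ![e, z t0, z t1, z t2] := by
    rw [Fintype.linearIndependent_iff]
    intro g hg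
    rw [Fin.sum_univ_four] at hg
    obtain ⟨h1, h2, h3⟩ := hz t0 t1 t2 n01 n02 n12 (g 0) (g 1) (g 2) (g 3) hg
    have h0 : g 0 = 0 := by
      rw [h1, h2, h3] at hg
      have h4 : g 0 • e = 0 := by simpa using hg
      rcases smul_eq_zero.1 h4 with h5 | h5
      · exact h5
      · exact absurd h5 he
    intro i
    fin_cases i
    · exact h0
    · exact h1
    · exact h2
    · exact h3
  have hle : Submodule.span ℂ (Set.range ![e, z t0, z t1, z t2]) ≤
      Submodule.span ℂ ((({e, u, w} : Finset V) : Set V)) := by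
    rw [Submodule.span_le]
    rintro _ ⟨i, rfl⟩
    fin_cases i
    · exact Submodule.subset_span (by simp)
    · exact hzt t0 ht0
    · exact hzt t1 ht1
    · exact hzt t2 ht2
  have hfd : Module.Finite ℂ (Submodule.span ℂ ((({e, u, w} : Finset V) : Set V))) :=
    FiniteDimensional.span_finset ℂ _
  have h1 := Submodule.finrank_mono hle
  have h2 := finrank_span_eq_card hli
  have h3 := finrank_span_finset_le_card (R := ℂ) ({e, u, w} : Finset V)
  have h4 : ({e, u, w} : Finset V).card ≤ 3 := Finset.card_le_three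
  rw [h2] at h1
  simp only [Fintype.card_fin] at h1
  have h5 := le_trans h1 (le_trans h3 h4)
  omega

end Pool.Agent.H21.JP
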