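import Pool.Agent.H21.JN.LowP

/-!
# Module LowZ (about 170 lines): kernel curves of small degree when only one small Kronecker block occurs

PROOF. As `low_prop` (Pool/Agent/H21/JN/LowP.lean): for a kernel curve `y` of degree at most `d` the components of `φ (y t)` vanish for the Jordan blocks
and for the blocks `kron k` with `d < k`. `hc` gives exactly one index `i1` with `bl i1 = kron k0`; by `pair_kron` (JKq) the component `w` at
`i1` has `w.1 = 0`, `w.2 j = (-t) ^ (k0 - j) * w.2 (last)`. By `h0` at most one index `i0` has `bl i0 = kron 0`, where `W` is one-dimensional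
(`w.1` lives on `Fin 0`, `w.2` on `Fin 1`). Take `z t = φ.symm (Pi.single i1 (0, fun j => (-t) ^ (k0 - j)))` and
`e = φ.symm (Pi.single i0 (0, fun _ => 1))` if there is such an `i0`, and `e = 0` otherwise (transport the vectors along `bl i1 = kron k0`, as in the
proof of `deg_one`, JKs, or take them by `Block` cases with `match`/`cases`: e.g. prove first the existence, for every block `b` with `b = .kron k`, of a
function `ζ : ℂ → W b` with `(w ∈ ChB b t 1 → ∃ β, w = β • ζ t)` and the independence property, by `subst`). Independence: the component at `i1`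
of `a • e + b • z t0 + c • z t1 + g • z t2 = 0` (the component of `e` at `i1` is `0` because `i0 ≠ i1`: `k0 ≠ 0`) at the last three coordinates gives
`b + c + g = 0`, `b * t0 + c * t1 + g * t2 = 0`, `b * t0 ^ 2 + c * t1 ^ 2 + g * t2 ^ 2 = 0` (`2 ≤ k0`), so `b = c = g = 0` because the `t`'s are
different.
-/

namespace Pool.Agent.H21.JP

open Module Pool.Agent.H4.JK Pool.Agent.H21.JN

variable {I : Type} [Fintype I] [DecidableEq I] {A B : Matrix I I ℂ}
  {ι : Type} [Fintype ι] {bl : ι → Block}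

private def LowZ_coord (k : ℕ) (j : Fin (k + 1)) : W (.kron k) →ₗ[ℂ] ℂ where
  toFun w := w.2 j
  map_add' _ _ := rfl
  map_smul' _ _ := rfl

private theorem LowZ_block (b : Block) (d : ℕ) (h : ∀ k, b = .kron k → d < k) (y : ℂ → W b)
    (hmem : ∀ (t : ℂ) (p : ℕ), y t ∈ ChB b t p)
    (hpoly : ∀ ℓ : W b →ₗ[ℂ] ℂ, ∃ P : Polynomial ℂ, P.natDegree ≤ d ∧ ∀ t, P.eval t = ℓ (y t))
    (t : ℂ) : y t = 0 := by
  rcases b with k | ⟨μ, m⟩
  · have hk : d < k := h k rfl
    have h5 : ∀ t : ℂ, (y t : W (.kron k)).1 = 0 ∧ ∀ j : Fin (k + 1),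
        (y t : W (.kron k)).2 j = (-t) ^ (k - j : ℕ) *
          (y t : W (.kron k)).2 (Fin.last k) := fun t =>
      (pair_kron k 1 le_rfl t _).1 (hmem t 1)
    obtain ⟨P0, hP0, hP0e⟩ := hpoly (LowZ_coord k 0)
    obtain ⟨P1, _, hP1e⟩ := hpoly (LowZ_coord k (Fin.last k))
    have h6 : P0 = (-Polynomial.X) ^ k * P1 := by
      apply Polynomial.funext
      intro t
      rw [hP0e, Polynomial.eval_mul, Polynomial.eval_pow, Polynomial.eval_neg, Polynomial.eval_X,
        hP1e]
      exact (h5 t).2 0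
    have h7 : P1 = 0 := by
      by_contra hne
      have h8 : ((-Polynomial.X : Polynomial ℂ) ^ k * P1).natDegree = k + P1.natDegree := by
        rw [Polynomial.natDegree_mul (pow_ne_zero _ (neg_ne_zero.2 Polynomial.X_ne_zero)) hne,
          Polynomial.natDegree_pow, Polynomial.natDegree_neg, Polynomial.natDegree_X, mul_one]
      rw [← h6] at h8
      omega
    refine Prod.ext (h5 t).1 ?_
    funext j
    have h9 := (h5 t).2 j
    have h10 : (y t : W (.kron k)).2 (Fin.last k) = 0 := by
      have h11 := hP1e t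
      rw [h7, Polynomial.eval_zero] at h11
      exact h11.symm
    rw [h10, mul_zero] at h9
    exact h9
  · exact ChB_le_KZ (.jordan μ m) t (m + 1) (by omega) (by
        intro m' hm'
        simp only [Block.jordan.injEq] at hm'
        omega) (hmem t (m + 1))

private theorem LowZ_zero (b : Block) (hb : b = .kron 0) : ∃ e : W b, ∀ w : W b, ∃ c : ℂ,
    w = c • e := by
  subst hb
  refine ⟨((fun j => j.elim0 : Fin 0 → ℂ), (fun _ => 1 : Fin 1 → ℂ)), fun w => ⟨w.2 (0 : Fin 1), ?_⟩⟩
  refine Prod.ext ?_ ?_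
  · funext j
    exact j.elim0
  · funext j
    have hj : j = (0 : Fin 1) := Fin.ext (by
      have := j.2
      change (j : ℕ) < 0 + 1 at this
      show (j : ℕ) = 0
      omega)
    rw [hj]
    show w.2 (0 : Fin 1) = w.2 (0 : Fin 1) * 1
    rw [mul_one]

private theorem LowZ_solve {t0 t1 t2 b c g : ℂ} (h01 : t0 ≠ t1) (h02 : t0 ≠ t2)
    (e0 : b + c + g = 0) (e1 : b * t0 + c * t1 + g * t2 = 0)
    (e2 : b * t0 ^ 2 + c * t1 ^ 2 + g * t2 ^ 2 = 0) : b = 0 := by
  have h : b * ((t0 - t1) * (t0 - t2)) = 0 := by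
    linear_combination e2 - (t1 + t2) * e1 + t1 * t2 * e0
  rcases mul_eq_zero.1 h with h | h
  · exact h
  · rcases mul_eq_zero.1 h with h | h
    · exact absurd (sub_eq_zero.1 h) h01
    · exact absurd (sub_eq_zero.1 h) h02

private theorem LowZ_kron (b : Block) (k : ℕ) (hb : b = .kron k) (hk : 2 ≤ k) :
    ∃ ζ : ℂ → W b, (∀ t w, w ∈ ChB b t 1 → ∃ β : ℂ, w = β • ζ t) ∧
      ∀ t0 t1 t2 : ℂ, t0 ≠ t1 → t0 ≠ t2 → t1 ≠ t2 → ∀ b c g : ℂ,
        b • ζ t0 + c • ζ t1 + g • ζ t2 = 0 → b = 0 ∧ c = 0 ∧ g = 0 := by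
  subst hb
  refine ⟨fun t => ((0 : Fin k → ℂ), (fun j => (-t) ^ (k - j : ℕ) : Fin (k + 1) → ℂ)), ?_, ?_⟩
  · intro t w hw
    have h5 := (pair_kron k 1 le_rfl t w).1 hw
    refine ⟨(w : W (.kron k)).2 (Fin.last k), ?_⟩
    refine Prod.ext ?_ ?_
    · rw [h5.1]
      funext j
      show (0 : ℂ) = (w : W (.kron k)).2 (Fin.last k) * 0
      rw [mul_zero]
    · funext j
      rw [h5.2 j]
      show _ = (w : W (.kron k)).2 (Fin.last k) * (-t) ^ (k - j : ℕ)
      ring
  · intro t0 t1 t2 h01 h02 h12 b c g h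
    have hcoord : ∀ j : Fin (k + 1), b * (-t0) ^ (k - j : ℕ) + c * (-t1) ^ (k - j : ℕ) +
        g * (-t2) ^ (k - j : ℕ) = 0 := by
      intro j
      have h1 := congrArg (fun w : W (.kron k) => (w.2 j : ℂ)) h
      exact h1
    have e0 := hcoord (Fin.last k)
    have e1 := hcoord ⟨k - 1, by omega⟩
    have e2 := hcoord ⟨k - 2, by omega⟩
    have k0 : k - ((Fin.last k : Fin (k + 1)) : ℕ) = 0 := by simp
    have k1 : k - (((⟨k - 1, by omega⟩ : Fin (k + 1))) : ℕ) = 1 := by
      show k - (k - 1) = 1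
      omega
    have k2 : k - (((⟨k - 2, by omega⟩ : Fin (k + 1))) : ℕ) = 2 := by
      show k - (k - 2) = 2
      omega
    rw [k0] at e0
    rw [k1] at e1
    rw [k2] at e2
    have f0 : b + c + g = 0 := by linear_combination e0
    have f1 : b * t0 + c * t1 + g * t2 = 0 := by linear_combination -e1
    have f2 : b * t0 ^ 2 + c * t1 ^ 2 + g * t2 ^ 2 = 0 := by linear_combination e2
    refine ⟨LowZ_solve h01 h02 f0 f1 f2, ?_, ?_⟩
    · exact LowZ_solve (t0 := t1) (t1 := t0) (t2 := t2) (b := c) (c := b) (g := g) h01.symm h12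
        (by linear_combination f0) (by linear_combination f1) (by linear_combination f2)
    · exact LowZ_solve (t0 := t2) (t1 := t0) (t2 := t1) (b := g) (c := b) (g := c) h02.symm
        h12.symm (by linear_combination f0) (by linear_combination f1) (by linear_combination f2)

private theorem LowZ_one {ι : Type} [Fintype ι] {bl : ι → Block} (k : ℕ)
    (h : (kronPart (Finset.univ.val.map bl)).count k ≤ 1) :
    ∀ i j, bl i = .kron k → bl j = .kron k → i = j := by
  classical
  intro i j hi hj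
  by_contra hij
  have h2 : ({.kron k, .kron k} : Multiset Block) ≤ Finset.univ.val.map bl := by
    have h3 : ({i, j} : Finset ι).val.map bl ≤ Finset.univ.val.map bl :=
      Multiset.map_le_map (Finset.val_le_iff.2 (Finset.subset_univ _))
    have h4 : ({i, j} : Finset ι).val.map bl = {.kron k, .kron k} := by
      rw [Finset.insert_val_of_notMem (by simpa using hij)]
      simp [hi, hj]
    rw [h4] at h3
    exact h3
  have h3 : ({k, k} : Multiset ℕ) ≤ kronPart (Finset.univ.val.map bl) := by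
    have h4 := Multiset.filterMap_le_filterMap (fun b : Block => match b with
      | .kron k => some k
      | .jordan _ _ => none) h2
    exact h4
  have h4 := Multiset.count_le_of_le k h3
  have h5 : Multiset.count k ({k, k} : Multiset ℕ) = 2 := by simp
  rw [h5] at h4
  omega

theorem low_span (φ : (I → ℂ) ≃ₗ[ℂ] ((i : ι) → W (bl i)))
    (hφ : ∀ v w, mform A v w = sumForm bl Block.PA (φ v) (φ w) ∧
      mform B v w = sumForm bl Block.PB (φ v) (φ w)) (d k0 : ℕ) (hk0 : 2 ≤ k0)
    (hK : ∀ k ∈ kronPart (Finset.univ.val.map bl), k ≠ 0 → k = k0 ∨ d < k)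
    (hc : (kronPart (Finset.univ.val.map bl)).count k0 = 1)
    (h0 : (kronPart (Finset.univ.val.map bl)).count 0 ≤ 1) :
    ∃ (e : I → ℂ) (z : ℂ → I → ℂ),
      (∀ y : I → Polynomial ℂ, (pen A B).mulVec y = 0 → (∀ i, (y i).natDegree ≤ d) →
        ∀ t, ∃ a b : ℂ, (fun i => (y i).eval t) = a • e + b • z t) ∧
      (∀ t0 t1 t2 : ℂ, t0 ≠ t1 → t0 ≠ t2 → t1 ≠ t2 → ∀ a b c g : ℂ,
        a • e + b • z t0 + c • z t1 + g • z t2 = 0 → b = 0 ∧ c = 0 ∧ g = 0) := by
  classical
  -- the index of the block of size k0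
  have hex1 : ∃ i1, bl i1 = .kron k0 := by
    have h1 : k0 ∈ kronPart (Finset.univ.val.map bl) := by
      rw [← Multiset.count_pos, hc]
      exact Nat.one_pos
    simp only [kronPart, Multiset.mem_filterMap, Multiset.mem_map] at h1
    obtain ⟨b, ⟨i, _, hb⟩, hb2⟩ := h1
    refine ⟨i, ?_⟩
    rw [hb]
    rcases b with k | ⟨μ, m⟩
    · simp only [Option.some.injEq] at hb2
      rw [hb2]
    · simp at hb2
  obtain ⟨i1, hi1⟩ := hex1
  have huniq1 := LowZ_one (bl := bl) k0 hc.le
  have huniq0 := LowZ_one (bl := bl) 0 h0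
  obtain ⟨ζ, hζ1, hζ2⟩ := LowZ_kron (bl i1) k0 hi1 hk0
  obtain ⟨E, hE1, hE2⟩ : ∃ E : (i : ι) → W (bl i), E i1 = 0 ∧ ∀ v : (i : ι) → W (bl i),
      (∀ i, bl i ≠ .kron 0 → i ≠ i1 → v i = 0) → ∃ a : ℂ, ∀ i, i ≠ i1 → v i = a • E i := by
    by_cases hex : ∃ i, bl i = .kron 0
    · obtain ⟨i0, hi0⟩ := hex
      have h01 : i0 ≠ i1 := by
        rintro rfl
        rw [hi1] at hi0
        simp only [Block.kron.injEq] at hi0
        omega
      obtain ⟨e0, he0⟩ := LowZ_zero (bl i0) hi0
      refine ⟨Pi.single i0 e0, by rw [Pi.single_eq_of_ne h01.symm], ?_⟩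
      intro v hv
      obtain ⟨c, hcv⟩ := he0 (v i0)
      refine ⟨c, fun i hi => ?_⟩
      by_cases h : i = i0
      · subst h
        rw [Pi.single_eq_same]
        exact hcv
      · rw [Pi.single_eq_of_ne h, smul_zero]
        exact hv i (fun h2 => h (huniq0 i i0 h2 hi0)) hi
    · push Not at hex
      refine ⟨0, rfl, ?_⟩
      intro v hv
      refine ⟨0, fun i hi => ?_⟩
      rw [hv i (hex i) hi, zero_smul]
  refine ⟨φ.symm E, fun t => φ.symm (Pi.single i1 (ζ t)), ?_, ?_⟩
  · intro z hz hd t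
    set y : ℂ → I → ℂ := fun t i => (z i).eval t with hy
    have hmem : ∀ t, y t ∈ Zs (pen A B) t := fun t => ⟨z, hz, fun i => rfl⟩
    have hch : ∀ t i p, φ (y t) i ∈ ChB (bl i) t p := by
      intro t i p
      have := Zs_le_Es _ _ p (hmem t)
      rw [Es_eq_pull φ hφ] at this
      exact this i
    have hsum : ∀ t, y t = ∑ l, (z l).eval t • (Pi.single l (1 : ℂ) : I → ℂ) := by
      intro t
      funext i
      rw [Finset.sum_apply, Finset.sum_eq_single i]
      · rw [Pi.smul_apply, Pi.single_eq_same, smul_eq_mul, mul_one]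
      · intro l _ hl
        rw [Pi.smul_apply, Pi.single_eq_of_ne (Ne.symm hl), smul_zero]
      · intro hi
        exact absurd (Finset.mem_univ i) hi
    have hzero : ∀ i, bl i ≠ .kron 0 → i ≠ i1 → φ (y t) i = 0 := by
      intro i hi hi'
      refine LowZ_block (bl i) d ?_ (fun t => φ (y t) i) (fun t p => hch t i p) ?_ t
      · intro k hk
        have h1 : k ∈ kronPart (Finset.univ.val.map bl) := by
          simp only [kronPart, Multiset.mem_filterMap, Multiset.mem_map]
          exact ⟨.kron k, ⟨i, Finset.mem_univ _, hk⟩, rfl⟩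
        rcases hK k h1 (by rintro rfl; exact hi hk) with h2 | h2
        · subst h2
          exact absurd (huniq1 i i1 hk hi1) hi'
        · exact h2
      · intro ℓ
        refine ⟨∑ l, z l * Polynomial.C (ℓ (φ (Pi.single l (1 : ℂ)) i)), ?_, ?_⟩
        · apply Polynomial.natDegree_sum_le_of_forall_le
          intro l _
          exact (Polynomial.natDegree_mul_C_le _ _).trans (hd l)
        · intro t
          rw [Polynomial.eval_finsetSum]
          show _ = ℓ (φ (y t) i)
          rw [hsum t, map_sum, Finset.sum_apply, map_sum]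
          apply Finset.sum_congr rfl
          intro l _
          rw [Polynomial.eval_mul, Polynomial.eval_C, map_smul, Pi.smul_apply, map_smul,
            smul_eq_mul]
    obtain ⟨a, ha⟩ := hE2 (φ (y t)) hzero
    obtain ⟨β, hβ⟩ := hζ1 t (φ (y t) i1) (hch t i1 1)
    refine ⟨a, β, ?_⟩
    show y t = _
    apply φ.injective
    rw [map_add, map_smul, map_smul, LinearEquiv.apply_symm_apply, LinearEquiv.apply_symm_apply]
    funext i
    by_cases h : i = i1
    · subst h
      rw [Pi.add_apply, Pi.smul_apply, Pi.smul_apply, Pi.single_eq_same, hE1, smul_zero, zero_add]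
      exact hβ
    · rw [Pi.add_apply, Pi.smul_apply, Pi.smul_apply, Pi.single_eq_of_ne h, smul_zero, add_zero]
      exact ha i h
  · intro t0 t1 t2 h01 h02 h12 a b c g h
    apply hζ2 t0 t1 t2 h01 h02 h12
    have h1 := congrArg (fun v => φ v i1) h
    simp only [map_add, map_smul, LinearEquiv.apply_symm_apply, map_zero, Pi.add_apply,
      Pi.smul_apply, Pi.single_eq_same, hE1, smul_zero, zero_add, Pi.zero_apply] at h1
    exact h1

end Pool.Agent.H21.JP
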