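import Pool.Agent.H21.JP.Par
import Pool.Agent.H21.JP.AlgR
import Pool.Agent.H21.JP.AlgF

/-!
# Module SamN: the degrees of pencils of semi-invariants
-/

namespace Pool.Agent.H21.JP

open MvPolynomial Pool.Agent.H4.JK Pool.Agent.H21.JN

variable {I : Type} [Fintype I] [DecidableEq I]

theorem deg_le {𝒜 : Matrix I I (MvPolynomial I ℂ)} (hA : 𝒜.transpose = -𝒜) {d : ℕ}
    (hL : ∀ᶠ p in gen I, LowS 𝒜 d p) {f f' F G : MvPolynomial I ℂ} {e N : ℕ}
    (he : 2 * e - 1 ≤ d) (hN : 2 * N - 1 ≤ d)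
    (hf : Irreducible f) (hne : ¬ f ∣ f') (hfe : f.IsHomogeneous e) (hfe' : f'.IsHomogeneous e)
    (hF : F.IsHomogeneous N) (hG : G.IsHomogeneous N) (hnp : NP F G) {χ ψ : I → ℂ}
    (hχ : ∀ j, gj 𝒜 f j = C (χ j) * f) (hχ' : ∀ j, gj 𝒜 f' j = C (χ j) * f')
    (hψ : ∀ j, gj 𝒜 F j = C (ψ j) * F) (hψ' : ∀ j, gj 𝒜 G j = C (ψ j) * G) : e ≤ N := by
  have hnpf : NP f f' := np_irr hf hne
  have he1 : 1 ≤ e := np_pos hnpf hfe hfe'
  have hN1 : 1 ≤ N := np_pos hnp hF hG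
  have hpar : ∀ i j, wr f f' i * wr F G j = wr f f' j * wr F G i := by
    intro i j
    exact parallel hL (wr f f') (wr F G) he hN (wr_hom hfe hfe' he1) (wr_hom hF hG hN1)
      (wr_ker hA hχ hχ') (wr_ker hA hψ hψ') (wr_euler hfe hfe') (wr_euler hF hG) i j
  obtain ⟨a, b, c, hc, hsum⟩ := exists_rel hN1 hf.ne_zero hfe hfe' hF hG hnp hpar
  obtain ⟨s, t, hst, hdvd⟩ := dvd_member hf hne hc hsum
  have hP0 : C s * F + C t * G ≠ 0 := by
    intro h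
    obtain ⟨h1, h2⟩ := hnp s t h
    rcases hst with h3 | h3
    · exact h3 h1
    · exact h3 h2
  have hPhom : (C s * F + C t * G).IsHomogeneous N := (hF.C_mul s).add (hG.C_mul t)
  have h1 := totalDegree_le_of_dvd_of_isDomain hdvd hP0
  rw [hfe.totalDegree hf.ne_zero, hPhom.totalDegree hP0] at h1
  exact h1

end Pool.Agent.H21.JP
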