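import Pool.Agent.H21.JP.Wr
import Pool.Agent.H21.JN.TwoS

/-!
# Module TwoG (about 90 lines): two semi-invariants of the same degree and weight

PROOF. Copy the proof of `two_semi` (Pool/Agent/H21/JN/TwoS.lean) with `v i = wr F G i` and the lemmas of Wr: `wr_ker` is (1), `wr_ne` is (2),
`wr_hom` is (3) (`1 ≤ e`: `np_pos`), `wr_euler` is used in (6). Everything else is the same.
-/

namespace Pool.Agent.H21.JP

open MvPolynomial Pool.Agent.H4.JK Pool.Agent.H21.JN

variable {I : Type} [Fintype I] [DecidableEq I]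

theorem two_gen {𝒜 : Matrix I I (MvPolynomial I ℂ)} (hA : 𝒜.transpose = -𝒜) {e : ℕ}
    {F G : MvPolynomial I ℂ} (hnp : NP F G) (he : F.IsHomogeneous e) (he' : G.IsHomogeneous e)
    (χ : I → ℂ) (hχ : ∀ j, gj 𝒜 F j = C (χ j) * F) (hχ' : ∀ j, gj 𝒜 G j = C (χ j) * G)
    (h : ∀ᶠ p in gen I, ∀ z : I → Polynomial ℂ, (LL 𝒜 p).mulVec z = 0 →
      (∀ i, (z i).natDegree ≤ 2 * e - 1) →
      ∀ t t' i j, (z i).eval t * (z j).eval t' = (z j).eval t * (z i).eval t') : False := by
  classical
  set v : I → MvPolynomial I ℂ := fun i => wr F G i with hvdef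
  -- (1)
  have h1 : ∀ i, ∑ j, 𝒜 i j * v j = 0 := fun i => wr_ker hA hχ hχ' i
  -- (2)
  have h2 : ∃ j0, v j0 ≠ 0 := wr_ne hnp
  -- (3)
  have hepos : 1 ≤ e := np_pos hnp he he'
  have h3 : ∀ i, (v i).IsHomogeneous (2 * e - 1) := fun i => wr_hom he he' hepos i
  -- (4)
  have h4 : ∀ᶠ p in gen I, ∀ i j,
      eval p.1 (v i) * eval p.2 (v j) = eval p.1 (v j) * eval p.2 (v i) := by
    filter_upwards [h] with p hp i j
    have a1 : (LL 𝒜 p).mulVec (fun i => line p (v i)) = 0 := by
      funext i
      have h0 := congrArg (line p) (h1 i)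
      rw [map_sum, map_zero] at h0
      simp only [map_mul] at h0
      rw [Pi.zero_apply, ← h0]
      rfl
    have a2 := hp _ a1 (fun i => line_deg (h3 i) p)
    have a3 : Polynomial.C ((line p (v i)).eval 0) * line p (v j) =
        Polynomial.C ((line p (v j)).eval 0) * line p (v i) := by
      apply Polynomial.funext
      intro t'
      rw [Polynomial.eval_mul, Polynomial.eval_mul, Polynomial.eval_C, Polynomial.eval_C]
      exact a2 0 t' i j
    have a4 := congrArg (fun P => Polynomial.coeff P (2 * e - 1)) a3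
    simp only [Polynomial.coeff_C_mul] at a4
    rw [line_coeff (h3 j), line_coeff (h3 i)] at a4
    have a6 : pt p 0 = p.1 := by
      funext k
      simp [pt]
    have a5 : ∀ i, (line p (v i)).eval 0 = eval p.1 (v i) := by
      intro i
      rw [eval_line, a6]
    rw [a5, a5] at a4
    exact a4
  -- (5)
  have h5 : ∀ (x y : I → ℂ) (i j : I),
      eval x (v i) * eval y (v j) = eval x (v j) * eval y (v i) := by
    intro x y i j
    by_contra hc
    set P : MvPolynomial (I ⊕ I) ℂ := rename Sum.inl (v i) * rename Sum.inr (v j) -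
      rename Sum.inl (v j) * rename Sum.inr (v i) with hP
    have hPe : ∀ p : (I → ℂ) × (I → ℂ), eval (Sum.elim p.1 p.2) P =
        eval p.1 (v i) * eval p.2 (v j) - eval p.1 (v j) * eval p.2 (v i) := by
      intro p
      rw [hP, map_sub, map_mul, map_mul, eval_rename, eval_rename, eval_rename, eval_rename,
        Sum.elim_comp_inl, Sum.elim_comp_inr]
    have hP0 : P ≠ 0 := by
      intro h0
      have h0' := hPe (x, y)
      rw [h0, map_zero] at h0'
      exact hc (sub_eq_zero.1 h0'.symm)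
    have hev : ∀ᶠ p in gen I, eval (Sum.elim p.1 p.2) P ≠ 0 :=
      eventually_gen.2 ⟨P, hP0, fun p hp => hp⟩
    obtain ⟨p, hp1, hp2⟩ := (hev.and h4).exists
    apply hp1
    rw [hPe p, hp2 i j, sub_self]
  -- (6)
  obtain ⟨j0, hj0⟩ := h2
  obtain ⟨a0, ha0⟩ := exists_eval_ne hj0
  have h6 : ∀ i, C (eval a0 (v j0)) * v i = C (eval a0 (v i)) * v j0 := by
    intro i
    apply MvPolynomial.funext
    intro x
    rw [map_mul, map_mul, eval_C, eval_C]
    exact h5 a0 x j0 i
  have h7 : ∑ i, X i * v i = 0 := wr_euler he he'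
  have h8 : v j0 * lf (fun i => eval a0 (v i)) = 0 := by
    have h8' : v j0 * lf (fun i => eval a0 (v i)) =
        C (eval a0 (v j0)) * ∑ i, X i * v i := by
      rw [lf, Finset.mul_sum, Finset.mul_sum]
      apply Finset.sum_congr rfl
      intro i _
      linear_combination (-(X i : MvPolynomial I ℂ)) * h6 i
    rw [h8', h7, mul_zero]
  have h9 := (mul_eq_zero.1 h8).resolve_left hj0
  exact ha0 (congrFun (lf_zero h9) j0)

end Pool.Agent.H21.JP
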