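import Pool.Agent.H21.JP.Frq2
import Pool.Agent.H21.JP.SamN
import Pool.Agent.H21.JP.TwoG
import Pool.Agent.H21.JP.LowZ
import Pool.Agent.H21.JN.JLi
import Pool.Agent.H21.JN.JacD

/-!
# Module Nec2 (about 220 lines): the divisor N

PROOF. As `nec_m` (Pool/Agent/H21/JN/NecM.lean; copy its private helpers). `hR` gives `g`, `b`, `𝒜 = SM b`. Let `Qn n` = there are `F G χ`, homogeneous of degree `n`, `NP F G`,
`gj 𝒜 F j = C (χ j) * F`, `gj 𝒜 G j = C (χ j) * G` for all `j`. CHOICE OF `N`. Case A: `Qn n` for some `n ≤ m`: let `N ≤ m` be the smallest `n` with `Qn n`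
(`Nat.find`). Then `k0 + 1 ≤ 2 * N`: otherwise (`1 ≤ N` by `np_pos`) `2 * N - 1 < k0` and `2 * N - 1 < 2 * m`, so all nonzero `k ∈ T.1` satisfy `2 * N - 1 < k` (`hK`), and `two_gen` with
`low_prop` (as `NecM_generic`) gives a contradiction. Case B: no `n ≤ m`: `N = k0 + 1`.
In both cases: (*) if `f, f'` are homogeneous of degree `e ≤ m`, semi-invariants of the same weight, `f` irreducible, `¬ f ∣ f'`, then `e = N`: `NP f f'` (`np_irr`), so `Qn e`; Case B
is impossible; in Case A `N ≤ e` by minimality and `e ≤ N` by `deg_le` with `d = 2 * m - 1` (`LowS (SM b) (2 * m - 1) p` for generic `p`: `gen_hasType`, `line_lin`, `low_span` with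
`d = 2 * m - 1`, the hypotheses `hK` (`2 * m - 1 < k` if `2 * m ≤ k`, `1 ≤ m` because `1 ≤ e ≤ m`), `hc`, `h0`).
COUNTING. `exists_fix2` with `N` gives the factors `F s` for the exceptional groups; they are linearly independent by `joint_li` as in `nec_m`: two different `s, s'` with the same weight and
degree `e` would have `e = N` by (*), against `dne`. `jac_bound` gives the bound for the set of the exceptional groups, which is the finite set in the statement.
-/

namespace Pool.Agent.H21.JP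

open MvPolynomial Module Pool.Agent.H4.JK Pool.Agent.H21.JN

/-- The operator `P ↦ gj 𝒜 P i` as a linear map. -/
private noncomputable def Nec2_G {I : Type} [Fintype I] [DecidableEq I]
    (𝒜 : Matrix I I (MvPolynomial I ℂ)) (i : I) : MvPolynomial I ℂ →ₗ[ℂ] MvPolynomial I ℂ where
  toFun P := gj 𝒜 P i
  map_add' := by
    intro P Q
    simp only [gj, map_add, add_mul, Finset.sum_add_distrib]
  map_smul' := by
    intro c P
    simp only [gj, Derivation.map_smul, smul_mul_assoc, Finset.smul_sum, RingHom.id_apply]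

/-- Euler's operator as a linear map. -/
private noncomputable def Nec2_E (I : Type) [Fintype I] [DecidableEq I] :
    MvPolynomial I ℂ →ₗ[ℂ] MvPolynomial I ℂ where
  toFun P := ∑ i, X i * pderiv i P
  map_add' := by
    intro P Q
    simp only [map_add, mul_add, Finset.sum_add_distrib]
  map_smul' := by
    intro c P
    simp only [Derivation.map_smul, mul_smul_comm, Finset.smul_sum, RingHom.id_apply]

private theorem Nec2_generic {I : Type} [Fintype I] [DecidableEq I]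
    {𝒜 : Matrix I I (MvPolynomial I ℂ)} (hlin : Lin 𝒜) (T : Multiset ℕ × Multiset (Multiset ℕ))
    (e : ℕ) (hK : ∀ k ∈ T.1, k ≠ 0 → 2 * e - 1 < k) (h0 : T.1.count 0 ≤ 1)
    {p : (I → ℂ) × (I → ℂ)}
    (hT : HasType (mform (𝒜.map (eval p.1))) (mform (𝒜.map (eval p.2))) T) :
    ∀ z : I → Polynomial ℂ, (LL 𝒜 p).mulVec z = 0 →
      (∀ i, (z i).natDegree ≤ 2 * e - 1) →
      ∀ t t' i j, (z i).eval t * (z j).eval t' = (z j).eval t * (z i).eval t' := by
  obtain ⟨ι, hι, bl, hpos, hty, hdec⟩ := hT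
  obtain ⟨φ, hφ⟩ := hdec
  have hT1 : T.1 = kronPart ((Finset.univ : Finset ι).val.map bl) := by rw [← hty]; rfl
  intro z hz hd t t' i j
  rw [line_lin hlin p] at hz
  rw [hT1] at hK h0
  exact low_prop φ hφ (2 * e - 1) hK h0 z hz hd t t' i j

private theorem Nec2_low {I : Type} [Fintype I] [DecidableEq I]
    {𝒜 : Matrix I I (MvPolynomial I ℂ)} (hlin : Lin 𝒜) (T : Multiset ℕ × Multiset (Multiset ℕ))
    (d k0 : ℕ) (hk0 : 2 ≤ k0) (hK : ∀ k ∈ T.1, k ≠ 0 → k = k0 ∨ d < k)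
    (hc : T.1.count k0 = 1) (h0 : T.1.count 0 ≤ 1)
    {p : (I → ℂ) × (I → ℂ)}
    (hT : HasType (mform (𝒜.map (eval p.1))) (mform (𝒜.map (eval p.2))) T) :
    LowS 𝒜 d p := by
  obtain ⟨ι, hι, bl, hpos, hty, hdec⟩ := hT
  obtain ⟨φ, hφ⟩ := hdec
  have hT1 : T.1 = kronPart ((Finset.univ : Finset ι).val.map bl) := by rw [← hty]; rfl
  rw [hT1] at hK hc h0
  obtain ⟨e, z, h1, h2⟩ := low_span φ hφ d k0 hk0 hK hc h0
  refine ⟨e, z, ?_, h2⟩
  intro y hy hd t
  rw [line_lin hlin p] at hy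
  exact h1 y hy hd t

/-- The choice of the divisor. -/
private theorem Nec2_choice {I : Type} [Fintype I] [DecidableEq I]
    {g : Type} [LieRing g] [LieAlgebra ℂ g] (b : Basis I ℂ g)
    (T : Multiset ℕ × Multiset (Multiset ℕ)) (hinv : HasInvariant g T) (m k0 : ℕ)
    (hk0 : 2 ≤ k0) (hc : T.1.count k0 = 1) (hK : ∀ k ∈ T.1, k ≠ 0 → k = k0 ∨ 2 * m ≤ k)
    (h0 : T.1.count 0 ≤ 1) :
    ∃ N : ℕ, k0 + 1 ≤ 2 * N ∧ ∀ (f f' : MvPolynomial I ℂ) (e : ℕ) (χ : I → ℂ), e ≤ m →
      Irreducible f → ¬ f ∣ f' → f.IsHomogeneous e → f'.IsHomogeneous e →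
      (∀ j, gj (SM b) f j = C (χ j) * f) → (∀ j, gj (SM b) f' j = C (χ j) * f') → e = N := by
  classical
  have hlow : ∀ᶠ p in gen I, LowS (SM b) (2 * m - 1) p := by
    filter_upwards [gen_hasType b hinv] with p hp
    refine Nec2_low (SM_lin b) T (2 * m - 1) k0 hk0 ?_ hc h0 hp
    intro k hk hk'
    rcases hK k hk hk' with h | h
    · exact Or.inl h
    · right; omega
  by_cases h : ∃ n, n ≤ m ∧ ∃ (F G : MvPolynomial I ℂ) (χ : I → ℂ), F.IsHomogeneous n ∧
      G.IsHomogeneous n ∧ NP F G ∧ (∀ j, gj (SM b) F j = C (χ j) * F) ∧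
      (∀ j, gj (SM b) G j = C (χ j) * G)
  · obtain ⟨hNm, F, G, ψ, hF, hG, hnp, hψ, hψ'⟩ := Nat.find_spec h
    have hmin : ∀ n, n < Nat.find h → ¬ (n ≤ m ∧ ∃ (F G : MvPolynomial I ℂ) (χ : I → ℂ),
      F.IsHomogeneous n ∧ G.IsHomogeneous n ∧ NP F G ∧ (∀ j, gj (SM b) F j = C (χ j) * F) ∧
      (∀ j, gj (SM b) G j = C (χ j) * G)) := fun n hn => Nat.find_min h hn
    generalize Nat.find h = N at hNm hF hG hmin
    refine ⟨N, ?_, ?_⟩
    · by_contra hcon
      have hN1 : 1 ≤ N := np_pos hnp hF hG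
      refine two_gen (SM_skew b) hnp hF hG ψ hψ hψ' ?_
      filter_upwards [gen_hasType b hinv] with p hp
      refine Nec2_generic (SM_lin b) T N ?_ h0 hp
      intro k hk hk'
      rcases hK k hk hk' with h' | h' <;> omega
    · intro f f' e χ he hf hne hfe hfe' hχ hχ'
      refine le_antisymm ?_ ?_
      · exact deg_le (SM_skew b) hlow (by omega) (by omega) hf hne hfe hfe' hF hG hnp hχ hχ'
          hψ hψ'
      · by_contra hlt
        exact hmin e (by omega) ⟨he, f, f', χ, hfe, hfe', np_irr hf hne, hχ, hχ'⟩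
  · refine ⟨k0 + 1, by omega, ?_⟩
    intro f f' e χ he hf hne hfe hfe' hχ hχ'
    exact absurd ⟨e, he, f, f', χ, hfe, hfe', np_irr hf hne, hχ, hχ'⟩ h

open Classical in
theorem nec_two (T : Multiset ℕ × Multiset (Multiset ℕ)) (hR : Realisable T) (m k0 : ℕ)
    (hk0 : 2 ≤ k0) (hc : T.1.count k0 = 1) (hK : ∀ k ∈ T.1, k ≠ 0 → k = k0 ∨ 2 * m ≤ k)
    (h0 : T.1.count 0 ≤ 1) :
    ∃ N : ℕ, k0 + 1 ≤ 2 * N ∧
      (T.2.toFinset.filter fun s => Bad s ∧ T.2.count s ≤ m ∧ ¬ N ∣ T.2.count s).card ≤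
        (m + 1) ^ (T.1.map (· + 1)).sum := by
  obtain ⟨g, _, _, hfd, hinv⟩ := hR
  let b := Module.finBasis ℂ g
  obtain ⟨N, hN, hstar⟩ := Nec2_choice b T hinv m k0 hk0 hc hK h0
  refine ⟨N, hN, ?_⟩
  obtain ⟨F, hS, hfr⟩ := exists_fix2 b T hinv m N
  have hmem : ∀ s ∈ (T.2.toFinset.filter fun s => Bad s ∧ T.2.count s ≤ m ∧
      ¬ N ∣ T.2.count s), Exc T m N s := by
    intro s hs
    obtain ⟨h2, h3⟩ := Finset.mem_filter.1 hs
    exact ⟨Multiset.mem_toFinset.1 h2, h3⟩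
  generalize (T.2.toFinset.filter fun s => Bad s ∧ T.2.count s ≤ m ∧
      ¬ N ∣ T.2.count s) = Sg at hmem ⊢
  have hfac : ∀ s : Sg, F s.1 ∈ UniqueFactorizationMonoid.factors (GG (SM b)) :=
    fun s => hS.fac s.1 (hmem s.1 s.2)
  have hirr : ∀ s : Sg, Irreducible (F s.1) :=
    fun s => UniqueFactorizationMonoid.irreducible_of_factor _ (hfac s)
  have hhom : ∀ s : Sg, (F s.1).IsHomogeneous (F s.1).totalDegree :=
    fun s => factor_hom (SM_lin b) (hfac s)
  have hdeg : ∀ s : Sg, (F s.1).totalDegree ≤ m := fun s => hS.deg s.1 (hmem s.1 s.2)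
  have hw : ∀ s : Sg, ∃ χ : Fin (finrank ℂ g) → ℂ,
      ∀ j, gj (SM b) (F s.1) j = C (χ j) * F s.1 := fun s => hS.wt s.1 (hmem s.1 s.2)
  choose χ hχ using hw
  have hli : LinearIndependent ℂ (fun s : Sg => F s.1) := by
    refine joint_li (K := Option (Fin (finrank ℂ g)))
      (fun k => k.elim (Nec2_E (Fin (finrank ℂ g))) (fun i => Nec2_G (SM b) i))
      (fun s : Sg => F s.1)
      (fun s k => k.elim (((F s.1).totalDegree : ℕ) : ℂ) (fun i => χ s i))
      (fun s => (hirr s).ne_zero) ?_ ?_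
    · intro s k
      cases k with
      | none =>
        show (∑ i, X i * pderiv i (F s.1) : MvPolynomial (Fin (finrank ℂ g)) ℂ) =
          (((F s.1).totalDegree : ℕ) : ℂ) • F s.1
        rw [euler (hhom s), MvPolynomial.smul_eq_C_mul, map_natCast]
      | some i =>
        show gj (SM b) (F s.1) i = χ s i • F s.1
        rw [hχ s i, MvPolynomial.smul_eq_C_mul]
    · intro s s' hss
      by_contra hne
      have h2 : (((F s.1).totalDegree : ℕ) : ℂ) = (((F s'.1).totalDegree : ℕ) : ℂ) :=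
        congrFun hss none
      have h3 : ∀ i, χ s i = χ s' i := fun i => congrFun hss (some i)
      have h4 : (F s.1).totalDegree = (F s'.1).totalDegree := by exact_mod_cast h2
      have h5 : s.1 ≠ s'.1 := fun h => hne (Subtype.ext h)
      have h6 := hdeg s
      exact hS.dne s.1 (hmem s.1 s.2) (hstar (F s.1) (F s'.1) (F s.1).totalDegree (χ s) h6
        (hirr s) (hS.ne s.1 (hmem s.1 s.2) s'.1 (hmem s'.1 s'.2) h5) (hhom s)
        (by rw [h4]; exact hhom s') (hχ s) (fun j => by rw [h3 j]; exact hχ s' j))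
  have h2 := jac_bound (fun s : Sg => F s.1) hli m (T.1.map (· + 1)).sum hdeg (by
    refine hfr.mono ?_
    rintro p ⟨L, hL1, hL2⟩
    exact ⟨L, hL1, fun s => hL2 s.1 (hmem s.1 s.2)⟩)
  rwa [Fintype.card_coe] at h2

end Pool.Agent.H21.JP
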