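import Pool.Agent.H4.JKx

/-!
# Module Quad (about 90 lines): a dependence which holds generically holds everywhere

PROOF. Suppose the four vectors are linearly independent for some `x, y`. The matrix with these four rows has rank four, so it has a nonzero minor of
size four: there is `τ : Fin 4 → I` with nonzero determinant (`exists_cols`, JKt, or `Matrix.rank` of the transpose and
`LinearIndependent` row/column arguments). Let `Φ ∈ MvPolynomial (I ⊕ I) ℂ` be the determinant of the matrix with the entries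
`rename Sum.inl (v1 (τ a))`, `rename Sum.inl (v2 (τ a))`, `σ (v1 (τ a))`, `σ (v2 (τ a))`, where `σ = bind₁ (fun i => X (Sum.inl i) + X (Sum.inr i))` (as a ring
homomorphism). Its value at `Sum.elim x (y - x)` is the minor (`RingHom.map_det`), so `Φ ≠ 0`, and for generic `p` the value at `Sum.elim p.1 p.2` is not
zero (`eventually_gen`), i.e. the four vectors at `p.1` and `pt p 1 = p.1 + p.2` are linearly independent, which contradicts `h`
(`gen_neBot`, `Filter.Eventually.and`, `.exists`).
-/

namespace Pool.Agent.H21.JP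

open MvPolynomial Pool.Agent.H4.JK

variable {I : Type} [Fintype I] [DecidableEq I]

/-- The value of a vector of polynomials. -/
noncomputable def vl (v : I → MvPolynomial I ℂ) (x : I → ℂ) : I → ℂ := fun i => eval x (v i)

/-- the polynomial matrix of the minor. -/
noncomputable def quadM (v1 v2 : I → MvPolynomial I ℂ) (τ : Fin 4 → I) :
    Matrix (Fin 4) (Fin 4) (MvPolynomial (I ⊕ I) ℂ) :=
  Matrix.of fun a b => (![rename Sum.inl (v1 (τ b)), rename Sum.inl (v2 (τ b)),
    bind₁ (fun i => X (Sum.inl i) + X (Sum.inr i)) (v1 (τ b)),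
    bind₁ (fun i => X (Sum.inl i) + X (Sum.inr i)) (v2 (τ b))] :
      Fin 4 → MvPolynomial (I ⊕ I) ℂ) a

omit [Fintype I] [DecidableEq I] in
theorem eval_quadM (v1 v2 : I → MvPolynomial I ℂ) (τ : Fin 4 → I) (x z : I → ℂ) :
    eval (Sum.elim x z) (quadM v1 v2 τ).det =
      (Matrix.of fun a b => (![vl v1 x, vl v2 x, vl v1 (x + z), vl v2 (x + z)] :
        Fin 4 → I → ℂ) a (τ b)).det := by
  have h1 : ∀ q : MvPolynomial I ℂ, eval (Sum.elim x z) (rename Sum.inl q) = eval x q := by
    intro q
    rw [eval_rename, Sum.elim_comp_inl]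
  have h2 : ∀ q : MvPolynomial I ℂ, eval (Sum.elim x z)
      (bind₁ (fun i => (X (Sum.inl i) + X (Sum.inr i) : MvPolynomial (I ⊕ I) ℂ)) q)
        = eval (x + z) q := by
    intro q
    have h3 : ((eval (Sum.elim x z)).comp ((bind₁ (fun i => (X (Sum.inl i) + X (Sum.inr i) :
        MvPolynomial (I ⊕ I) ℂ))).toRingHom)) = eval (x + z) := by
      apply MvPolynomial.ringHom_ext
      · intro r
        simp
      · intro i
        simp
    exact congrArg (fun f : MvPolynomial I ℂ →+* ℂ => f q) h3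
  rw [RingHom.map_det]
  congr 1
  ext a b
  fin_cases a
  · simp [quadM, vl, h1]
  · simp [quadM, vl, h1]
  · simp [quadM, vl, h2]
  · simp [quadM, vl, h2]

omit [Fintype I] [DecidableEq I] in
theorem li_of_det (w : Fin 4 → I → ℂ) (τ : Fin 4 → I)
    (h : (Matrix.of fun a b => w a (τ b)).det ≠ 0) : LinearIndependent ℂ w := by
  have h1 : LinearIndependent ℂ (Matrix.of fun a b => w a (τ b)).row := by
    rw [Matrix.linearIndependent_rows_iff_isUnit, Matrix.isUnit_iff_isUnit_det]
    exact isUnit_iff_ne_zero.2 h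
  exact LinearIndependent.of_comp (LinearMap.funLeft ℂ ℂ τ) h1

theorem quad_dep (v1 v2 : I → MvPolynomial I ℂ)
    (h : ∀ᶠ p in gen I, ¬ LinearIndependent ℂ
      ![vl v1 p.1, vl v2 p.1, vl v1 (pt p 1), vl v2 (pt p 1)]) (x y : I → ℂ) :
    ¬ LinearIndependent ℂ ![vl v1 x, vl v2 x, vl v1 y, vl v2 y] := by
  classical
  intro hli
  have h1 : (Matrix.of ![vl v1 x, vl v2 x, vl v1 y, vl v2 y]).rank = 4 := by
    have h2 : LinearIndependent ℂ (Matrix.of ![vl v1 x, vl v2 x, vl v1 y, vl v2 y]).row := hli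
    have h3 := h2.rank_matrix
    rw [Fintype.card_fin] at h3
    exact h3
  obtain ⟨τ, hτ⟩ := exists_cols _ 4 h1
  have h2 : (Matrix.of fun a b => (![vl v1 x, vl v2 x, vl v1 y, vl v2 y] :
      Fin 4 → I → ℂ) a (τ b)).det ≠ 0 := by
    rw [← Matrix.det_transpose]
    have h3 : LinearIndependent ℂ (Matrix.transpose (Matrix.of fun a b =>
      (![vl v1 x, vl v2 x, vl v1 y, vl v2 y] : Fin 4 → I → ℂ) a (τ b))).row := hτ
    rw [Matrix.linearIndependent_rows_iff_isUnit, Matrix.isUnit_iff_isUnit_det] at h3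
    exact h3.ne_zero
  have h3 : (quadM v1 v2 τ).det ≠ 0 := by
    intro h0
    have h4 := eval_quadM v1 v2 τ x (y - x)
    rw [h0, map_zero, add_sub_cancel] at h4
    exact h2 h4.symm
  have h4 : ∀ᶠ p in gen I, eval (Sum.elim p.1 p.2) (quadM v1 v2 τ).det ≠ 0 :=
    eventually_gen.2 ⟨_, h3, fun p hp => hp⟩
  obtain ⟨p, hp1, hp2⟩ := (h.and h4).exists
  apply hp1
  rw [eval_quadM] at hp2
  have h5 : pt p 1 = p.1 + p.2 := by
    funext i
    simp [pt]
  rw [h5]
  exact li_of_det _ τ hp2

end Pool.Agent.H21.JP
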