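import Pool.Agent.H21.JP.LinA
import Pool.Agent.H21.JP.Quad
import Pool.Agent.H21.JN.Ln

/-!
# Module Par (about 170 lines): two kernel fields of small degree tangent to the spheres are parallel

PROOF. Suppose `Δ = v1 i * v2 j - v1 j * v2 i ≠ 0` for some `i, j`. (1) For generic `p`: `LowS`, with `e, z`. The curves `y1 k = line p (v1 k)`,
`y2 k = line p (v2 k)` satisfy `(LL 𝒜 p).mulVec y = 0` (apply the ring homomorphism `line p` to `k1`, `k2`; definition of `LL`) and have degree at most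
`d` (`line_deg`), and `(y1 k).eval t = eval (pt p t) (v1 k)` (`eval_line`); so (*) `vl v1 (pt p t)`, `vl v2 (pt p t)` and all their linear combinations are of the form
`a • e + b • z t`. (2) Hence the four vectors of `quad_dep` for `p.1 = pt p 0` and `pt p 1` are in the span of `e, z 0, z 1`, which has
dimension at most three: they are dependent. So by `quad_dep` they are dependent for all `x, y`. (3) Fix one generic `p` with `LowS` and `eval p.1 Δ ≠ 0`
(`gen_fst`, `.and`, `.exists`). The set `S` of the `t` with `eval (pt p t) Δ ≠ 0` is infinite (`line p Δ` is not zero: its value at `0` is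
not zero; it has finitely many roots). `e ≠ 0`: if `e = 0` then `vl v1 p.1`, `vl v2 p.1` are multiples of `z 0`, so `eval p.1 Δ = 0`. (4) Let `y` be a point
with `eval y Δ ≠ 0`; then `vl v1 y`, `vl v2 y` are linearly independent. For `t ∈ S` also `vl v1 (pt p t)`, `vl v2 (pt p t)` are linearly independent and
the four vectors are dependent, so there is a combination `α • vl v1 (pt p t) + β • vl v2 (pt p t) = γ • vl v1 y + δ • vl v2 y` with `(α, β) ≠ 0`, and its value is not
zero; by (*) it is `a • e + b • z t`, `a ≠ 0 ∨ b ≠ 0`. By `mem_plane`: `e = c • vl v1 y + d • vl v2 y`. By `e1`, `e2` evaluated at `y`: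
`∑ i, e i * y i = 0`. (5) So `lf e * Δ` vanishes at all points `y`: it is zero (`MvPolynomial.funext`), `lf e = 0`, `e = 0` (`lf_zero`, JKu). Contradiction.
-/

namespace Pool.Agent.H21.JP

open MvPolynomial Pool.Agent.H4.JK Pool.Agent.H21.JN

variable {I : Type} [Fintype I] [DecidableEq I]

/-- The kernel curves of small degree of the pencil at `p` lie in planes `span (e, z t)`. -/
def LowS (𝒜 : Matrix I I (MvPolynomial I ℂ)) (d : ℕ) (p : (I → ℂ) × (I → ℂ)) : Prop :=
  ∃ (e : I → ℂ) (z : ℂ → I → ℂ),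
    (∀ y : I → Polynomial ℂ, (LL 𝒜 p).mulVec y = 0 → (∀ i, (y i).natDegree ≤ d) →
      ∀ t, ∃ a b : ℂ, (fun i => (y i).eval t) = a • e + b • z t) ∧
    (∀ t0 t1 t2 : ℂ, t0 ≠ t1 → t0 ≠ t2 → t1 ≠ t2 → ∀ a b c g : ℂ,
      a • e + b • z t0 + c • z t1 + g • z t2 = 0 → b = 0 ∧ c = 0 ∧ g = 0)

private theorem Par_curve {𝒜 : Matrix I I (MvPolynomial I ℂ)} {d : ℕ} {p : (I → ℂ) × (I → ℂ)}
    {e : I → ℂ} {z : ℂ → I → ℂ}
    (h : ∀ y : I → Polynomial ℂ, (LL 𝒜 p).mulVec y = 0 → (∀ i, (y i).natDegree ≤ d) →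
      ∀ t, ∃ a b : ℂ, (fun i => (y i).eval t) = a • e + b • z t)
    (v : I → MvPolynomial I ℂ) {dv : ℕ} (hd : dv ≤ d) (hv : ∀ i, (v i).IsHomogeneous dv)
    (hk : ∀ i, ∑ j, 𝒜 i j * v j = 0) (t : ℂ) :
    ∃ a b : ℂ, vl v (pt p t) = a • e + b • z t := by
  obtain ⟨a, b, hab⟩ := h (fun i => line p (v i)) (by
    funext i
    have h1 := congrArg (line p) (hk i)
    rw [map_sum, map_zero] at h1
    simp only [map_mul] at h1
    simpa [Matrix.mulVec, dotProduct, LL] using h1)
    (fun i => (line_deg (hv i) p).trans hd) t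
  refine ⟨a, b, ?_⟩
  rw [← hab]
  funext i
  rw [eval_line]
  rfl

private theorem Par_indep {V1 V2 : I → ℂ} {i j : I} (h : V1 i * V2 j - V1 j * V2 i ≠ 0)
    {α β : ℂ} (h0 : α • V1 + β • V2 = 0) : α = 0 ∧ β = 0 := by
  have hi := congrFun h0 i
  have hj := congrFun h0 j
  simp only [Pi.add_apply, Pi.smul_apply, smul_eq_mul, Pi.zero_apply] at hi hj
  constructor
  · have h1 : α * (V1 i * V2 j - V1 j * V2 i) = 0 := by
      linear_combination V2 j * hi - V2 i * hj
    exact (mul_eq_zero.1 h1).resolve_right h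
  · have h1 : β * (V1 i * V2 j - V1 j * V2 i) = 0 := by
      linear_combination V1 i * hj - V1 j * hi
    exact (mul_eq_zero.1 h1).resolve_right h

private theorem Par_four {e z0 z1 V1 V2 W1 W2 : I → ℂ}
    (h1 : ∃ a b : ℂ, V1 = a • e + b • z0) (h2 : ∃ a b : ℂ, V2 = a • e + b • z0)
    (h3 : ∃ a b : ℂ, W1 = a • e + b • z1) (h4 : ∃ a b : ℂ, W2 = a • e + b • z1) :
    ¬ LinearIndependent ℂ ![V1, V2, W1, W2] := by
  intro hli
  have hU : Module.finrank ℂ (Submodule.span ℂ (Set.range ![e, z0, z1])) ≤ 3 := by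
    have := finrank_range_le_card (R := ℂ) ![e, z0, z1]
    rw [Fintype.card_fin] at this
    exact this
  have he : e ∈ Submodule.span ℂ (Set.range ![e, z0, z1]) :=
    Submodule.subset_span ⟨0, rfl⟩
  have hz0 : z0 ∈ Submodule.span ℂ (Set.range ![e, z0, z1]) :=
    Submodule.subset_span ⟨1, rfl⟩
  have hz1 : z1 ∈ Submodule.span ℂ (Set.range ![e, z0, z1]) :=
    Submodule.subset_span ⟨2, rfl⟩
  have hle : Submodule.span ℂ (Set.range ![V1, V2, W1, W2]) ≤
      Submodule.span ℂ (Set.range ![e, z0, z1]) := by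
    rw [Submodule.span_le]
    rintro _ ⟨k, rfl⟩
    obtain ⟨a1, b1, rfl⟩ := h1
    obtain ⟨a2, b2, rfl⟩ := h2
    obtain ⟨a3, b3, rfl⟩ := h3
    obtain ⟨a4, b4, rfl⟩ := h4
    fin_cases k
    · exact Submodule.add_mem _ (Submodule.smul_mem _ _ he) (Submodule.smul_mem _ _ hz0)
    · exact Submodule.add_mem _ (Submodule.smul_mem _ _ he) (Submodule.smul_mem _ _ hz0)
    · exact Submodule.add_mem _ (Submodule.smul_mem _ _ he) (Submodule.smul_mem _ _ hz1)
    · exact Submodule.add_mem _ (Submodule.smul_mem _ _ he) (Submodule.smul_mem _ _ hz1)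
  have h5 := Submodule.finrank_mono hle
  rw [finrank_span_eq_card hli] at h5
  simp at h5
  omega

theorem parallel {𝒜 : Matrix I I (MvPolynomial I ℂ)} {d : ℕ} (hL : ∀ᶠ p in gen I, LowS 𝒜 d p)
    (v1 v2 : I → MvPolynomial I ℂ) {d1 d2 : ℕ} (hd1 : d1 ≤ d) (hd2 : d2 ≤ d)
    (h1 : ∀ i, (v1 i).IsHomogeneous d1) (h2 : ∀ i, (v2 i).IsHomogeneous d2)
    (k1 : ∀ i, ∑ j, 𝒜 i j * v1 j = 0) (k2 : ∀ i, ∑ j, 𝒜 i j * v2 j = 0)
    (e1 : ∑ i, X i * v1 i = 0) (e2 : ∑ i, X i * v2 i = 0) (i j : I) :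
    v1 i * v2 j = v1 j * v2 i := by
  by_contra hc
  obtain ⟨Δ, hΔdef⟩ : ∃ Δ : MvPolynomial I ℂ, Δ = v1 i * v2 j - v1 j * v2 i := ⟨_, rfl⟩
  have hΔ : Δ ≠ 0 := by
    rw [hΔdef]
    exact sub_ne_zero.2 hc
  have hΔe : ∀ x, eval x Δ = vl v1 x i * vl v2 x j - vl v1 x j * vl v2 x i := by
    intro x
    rw [hΔdef, map_sub, map_mul, map_mul]
    rfl
  have hpt0 : ∀ p : (I → ℂ) × (I → ℂ), pt p 0 = p.1 := by
    intro p
    funext k
    simp [pt]
  -- (2)
  have hdep : ∀ᶠ p in gen I, ¬ LinearIndependent ℂ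
      ![vl v1 p.1, vl v2 p.1, vl v1 (pt p 1), vl v2 (pt p 1)] := by
    refine hL.mono ?_
    rintro p ⟨e, z, hz1, -⟩
    have c1 := Par_curve hz1 v1 hd1 h1 k1 0
    have c2 := Par_curve hz1 v2 hd2 h2 k2 0
    rw [hpt0] at c1 c2
    exact Par_four c1 c2 (Par_curve hz1 v1 hd1 h1 k1 1) (Par_curve hz1 v2 hd2 h2 k2 1)
  have hquad := quad_dep v1 v2 hdep
  -- (3)
  obtain ⟨p, hpΔ, e, z, hz1, hz2⟩ := ((gen_fst hΔ).and hL).exists
  have hS : {t : ℂ | eval (pt p t) Δ ≠ 0}.Infinite := by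
    have hne : line p Δ ≠ 0 := by
      intro h0
      apply hpΔ
      have := eval_line p 0 Δ
      rw [h0, Polynomial.eval_zero, hpt0] at this
      exact this.symm
    have hfin : {t : ℂ | eval (pt p t) Δ = 0}.Finite := by
      refine (Finset.finite_toSet (line p Δ).roots.toFinset).subset ?_
      intro t ht
      rw [Finset.mem_coe, Multiset.mem_toFinset, Polynomial.mem_roots hne, Polynomial.IsRoot.def,
        eval_line]
      exact ht
    have := hfin.infinite_compl
    exact this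
  have hcurve1 := Par_curve hz1 v1 hd1 h1 k1
  have hcurve2 := Par_curve hz1 v2 hd2 h2 k2
  have he : e ≠ 0 := by
    rintro rfl
    obtain ⟨a1, b1, c1⟩ := hcurve1 0
    obtain ⟨a2, b2, c2⟩ := hcurve2 0
    rw [hpt0] at c1 c2
    apply hpΔ
    rw [hΔe, c1, c2]
    simp only [smul_zero, zero_add, Pi.smul_apply, smul_eq_mul]
    ring
  -- (4)
  have hpl : ∀ y : I → ℂ, eval y Δ ≠ 0 → ∃ c g : ℂ, e = c • vl v1 y + g • vl v2 y := by
    intro y hy
    refine mem_plane e z he hz2 (vl v1 y) (vl v2 y) _ hS ?_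
    intro t ht
    have hind : ∀ x : I → ℂ, eval x Δ ≠ 0 → ∀ α β : ℂ,
        α • vl v1 x + β • vl v2 x = 0 → α = 0 ∧ β = 0 := by
      intro x hx α β h0
      rw [hΔe] at hx
      exact Par_indep hx h0
    have hd := hquad (pt p t) y
    rw [Fintype.not_linearIndependent_iff] at hd
    obtain ⟨g, hg, k, hk⟩ := hd
    rw [Fin.sum_univ_four] at hg
    simp only [Matrix.cons_val_zero, Matrix.cons_val_one, Matrix.cons_val] at hg
    obtain ⟨a1, b1, c1⟩ := hcurve1 t
    obtain ⟨a2, b2, c2⟩ := hcurve2 t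
    refine ⟨g 0 * a1 + g 1 * a2, g 0 * b1 + g 1 * b2, - g 2, - g 3, ?_, ?_⟩
    · by_contra hab
      push Not at hab
      obtain ⟨ha, hb⟩ := hab
      have hv : g 0 • vl v1 (pt p t) + g 1 • vl v2 (pt p t) = 0 := by
        rw [c1, c2]
        have : g 0 • (a1 • e + b1 • z t) + g 1 • (a2 • e + b2 • z t) =
            (g 0 * a1 + g 1 * a2) • e + (g 0 * b1 + g 1 * b2) • z t := by
          module
        rw [this, ha, hb, zero_smul, zero_smul, add_zero]
      obtain ⟨q0, q1⟩ := hind _ ht _ _ hv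
      have hw : g 2 • vl v1 y + g 3 • vl v2 y = 0 := by
        rw [q0, q1, zero_smul, zero_smul, zero_add, zero_add] at hg
        exact hg
      obtain ⟨q2, q3⟩ := hind _ hy _ _ hw
      apply hk
      fin_cases k
      · exact q0
      · exact q1
      · exact q2
      · exact q3
    · have h3 : (g 0 * a1 + g 1 * a2) • e + (g 0 * b1 + g 1 * b2) • z t =
          g 0 • vl v1 (pt p t) + g 1 • vl v2 (pt p t) := by
        rw [c1, c2]
        module
      rw [h3]
      have h4 : g 0 • vl v1 (pt p t) + g 1 • vl v2 (pt p t) =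
          (g 0 • vl v1 (pt p t) + g 1 • vl v2 (pt p t) + g 2 • vl v1 y + g 3 • vl v2 y) -
            (g 2 • vl v1 y + g 3 • vl v2 y) := by
        abel
      rw [h4, hg]
      module
  -- (5)
  have hsum : ∀ (v : I → MvPolynomial I ℂ), ∑ i, X i * v i = 0 → ∀ y : I → ℂ,
      ∑ l, vl v y l * y l = 0 := by
    intro v hv y
    have := congrArg (eval y) hv
    rw [map_sum, map_zero] at this
    rw [← this]
    apply Finset.sum_congr rfl
    intro l _
    rw [map_mul, eval_X, mul_comm]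
    rfl
  have h5 : lf e * Δ = 0 := by
    apply MvPolynomial.funext
    intro y
    rw [map_mul, map_zero, eval_lf]
    by_cases hy : eval y Δ = 0
    · rw [hy, mul_zero]
    · obtain ⟨c, g, hcg⟩ := hpl y hy
      have h6 : ∑ l, e l * y l = c * ∑ l, vl v1 y l * y l + g * ∑ l, vl v2 y l * y l := by
        rw [Finset.mul_sum, Finset.mul_sum, ← Finset.sum_add_distrib]
        apply Finset.sum_congr rfl
        intro l _
        have := congrFun hcg l
        simp only [Pi.add_apply, Pi.smul_apply, smul_eq_mul] at this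
        rw [this]
        ring
      rw [h6, hsum v1 e1 y, hsum v2 e2 y]
      ring
  exact he (lf_zero ((mul_eq_zero.1 h5).resolve_right hΔ))

end Pool.Agent.H21.JP
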