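import Pool.Agent.H21.JP.Asy

/-!
# Module Sharp (about 110 lines): for which K the count of the bad groups of multiplicity one decides

PROOF. (⇐) `1 ∈ K`, `2 ≤ K.count 0`: `realisable_all` / `realisable_main`; the third case: `iff_ab` (Pool/Agent/H21/JR/FinX.lean).
(⇒) Suppose `1 ∉ K` and `K.count 0 ≤ 1`. `Many K {2, 3}`: for `n` take `T` from `fam2` with `M = {2, 3}`; all members of `T.2` have multiplicity `2` or `3`, so no bad group has
multiplicity `1`, the filter in the hypothesis is empty and `T` is realisable. In particular `Many K {2}` (restrict), so `thresh` gives `a ∈ K` with `2 ≤ a`, `a + 1 ≤ 4`.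
If `(K.filter (0 < k < 6)).card ≤ 1` then `asym` with `M = {2, 3}`, `b = 3`, gives `k ∈ K`, `2 ≤ k`, and `N` with `k + 1 ≤ 2 * N`, `N ∣ 2`, `N ∣ 3`, so `N = 1` and `k + 1 ≤ 2`: contradiction. So the
filter has at least two elements; it contains `a`; `filter = a ::ₘ rest` (`Multiset.exists_cons_of_mem`) and `rest` has an element `b`, `{a, b} ≤ filter ≤ K`,
and `0 < b < 6`, `b ≠ 1`, so `2 ≤ b ≤ 5`.
-/

namespace Pool.Agent.H21.JP

open Pool.Agent.H4.JK Pool.Agent.H21.JN

open Classical in
theorem sharp (K : Multiset ℕ) :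
    (∀ T : Multiset ℕ × Multiset (Multiset ℕ), IsType T → T.1 = K →
      (T.2.filter fun s => Bad s ∧ T.2.count s = 1).card ≤ (K.map (· + 1)).sum →
        Realisable T) ↔
    (1 ∈ K ∨ 2 ≤ K.count 0 ∨
      ∃ a b : ℕ, 2 ≤ a ∧ a ≤ 3 ∧ 2 ≤ b ∧ b ≤ 5 ∧ ({a, b} : Multiset ℕ) ≤ K) := by
  constructor
  · intro h
    by_contra hno
    rw [not_or, not_or] at hno
    obtain ⟨h1, h0, hex⟩ := hno
    have hmany : Many K {2, 3} := by
      intro n
      obtain ⟨T, hT, hK, hs, hn⟩ := fam2 K {2, 3} (by
        intro m hm
        rw [Finset.mem_insert, Finset.mem_singleton] at hm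
        omega) n
      refine ⟨T, hT, ?_, hK, hn⟩
      apply h T hT hK
      have he : (T.2.filter fun s => Bad s ∧ T.2.count s = 1) = 0 := by
        rw [Multiset.filter_eq_nil]
        intro s hs' hb
        have h2 := (hs s hs').2
        rw [Finset.mem_insert, Finset.mem_singleton] at h2
        omega
      rw [he, Multiset.card_zero]
      exact Nat.zero_le _
    have hmany2 : Many K {2} := by
      intro n
      obtain ⟨T, hT, hR, hK, hn⟩ := hmany n
      refine ⟨T, hT, hR, hK, ?_⟩
      intro m hm
      rw [Finset.mem_singleton] at hm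
      subst hm
      exact hn 2 (Finset.mem_insert_self _ _)
    rcases (thresh K 2 (by omega)).1 hmany2 with hc | hc | ⟨a, haK, ha2, ha3⟩
    · exact h1 hc
    · exact h0 hc
    · by_cases hcard : (K.filter fun k => 0 < k ∧ k < 2 * 3).card ≤ 1
      · rcases (asym K {2, 3} 3 ⟨2, Finset.mem_insert_self _ _⟩ (by
          intro m hm
          rw [Finset.mem_insert, Finset.mem_singleton] at hm
          omega) hcard).1 hmany with hc | hc | ⟨k, hk, hk2, N, hN, hd⟩
        · exact h1 hc
        · exact h0 hc
        · have hd2 := hd 2 (Finset.mem_insert_self _ _)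
          have hd3 := hd 3 (Finset.mem_insert_of_mem (Finset.mem_singleton_self _))
          have hd1 : N ∣ 1 := (Nat.dvd_add_right hd2).1 hd3
          have hN1 : N = 1 := Nat.dvd_one.1 hd1
          omega
      · have haf : a ∈ K.filter fun k => 0 < k ∧ k < 2 * 3 :=
          Multiset.mem_filter.2 ⟨haK, by omega, by omega⟩
        obtain ⟨rest, hrest⟩ := Multiset.exists_cons_of_mem haf
        rw [hrest, Multiset.card_cons] at hcard
        have hpos : 0 < rest.card := by omega
        obtain ⟨b, hb⟩ := Multiset.card_pos_iff_exists_mem.1 hpos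
        have hbf : b ∈ K.filter fun k => 0 < k ∧ k < 2 * 3 := by
          rw [hrest]
          exact Multiset.mem_cons_of_mem hb
        obtain ⟨hbK, hb0, hb6⟩ := Multiset.mem_filter.1 hbf
        have hb1 : b ≠ 1 := fun hh => h1 (hh ▸ hbK)
        apply hex
        refine ⟨a, b, ha2, by omega, by omega, by omega, ?_⟩
        have hle : ({a, b} : Multiset ℕ) ≤ K.filter fun k => 0 < k ∧ k < 2 * 3 := by
          rw [hrest]
          exact Multiset.cons_le_cons a (Multiset.singleton_le.2 hb)
        exact hle.trans (Multiset.filter_le _ _)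
  · intro h T hT hK hc
    rcases h with h | h | ⟨a, b, ha, ha', hb, hb', hab⟩
    · exact realisable_main T hT (Or.inl (by rw [hK]; exact h))
    · exact realisable_main T hT (Or.inr (by rw [hK]; exact h))
    · refine (Pool.Agent.H21.JR.iff_ab T hT a b (by rw [hK]; exact hab) ha ha' hb hb').2
        (Or.inr (Or.inr ?_))
      rw [hK]
      exact hc

end Pool.Agent.H21.JP
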