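import Pool.Agent.H21.JN.JacA
import Pool.Agent.H21.JN.JacB
import Pool.Agent.H21.JN.JacD
import Pool.Agent.H21.JP.ExpL

/-!
# Module TwoD (about 100 lines): homogeneous polynomials of the same degree with gradients in planes

PROOF. Copy the proof of `jac_bound` (Pool/Agent/H21/JN/JacD.lean) with `c = 2` and `card_le_line` instead of `card_le_pow`: all elements of
`V = span (range f)` are homogeneous of degree `D` (`Submodule.span_le` with `MvPolynomial.homogeneousSubmodule`), so the exponents `β` of their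
supports satisfy `∑ i, β i = D` (`IsHomogeneous`, `Finsupp.degree`), in particular `β i ≤ D`.
-/

namespace Pool.Agent.H21.JP

open MvPolynomial Module Pool.Agent.H4.JK Pool.Agent.H21.JN

variable {I : Type} [Fintype I] [DecidableEq I]

theorem two_dim_bound {J : Type} [Fintype J] (f : J → MvPolynomial I ℂ)
    (hli : LinearIndependent ℂ f) (D : ℕ) (hhom : ∀ j, (f j).IsHomogeneous D)
    (h : ∃ᶠ p in gen I, ∃ L : Submodule ℂ (I → ℂ), finrank ℂ L ≤ 2 ∧ ∀ j, grd (f j) p.1 ∈ L) :
    Fintype.card J ≤ D + 1 := by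
  obtain ⟨mo⟩ := jdaux_monomialOrder I
  set V : Submodule ℂ (MvPolynomial I ℂ) := Submodule.span ℂ (Set.range f) with hV
  have hVhom : ∀ g ∈ V, g.IsHomogeneous D := by
    intro g hg
    have h1 : V ≤ homogeneousSubmodule I ℂ D := by
      rw [hV, Submodule.span_le]
      rintro _ ⟨j, rfl⟩
      exact (mem_homogeneousSubmodule D (f j)).2 (hhom j)
    exact (mem_homogeneousSubmodule D g).1 (h1 hg)
  have hVsum : ∀ g ∈ V, g ≠ 0 → ∑ i, mo.degree g i = D := by
    intro g hg hg0
    have h1 : mo.degree g ∈ g.support := mo.degree_mem_support hg0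
    have h2 := hVhom g hg (mem_support_iff.1 h1)
    rw [← h2, Finsupp.weight_apply, Finsupp.sum_fintype _ _ (fun _ => by simp)]
    simp
  have hVle : ∀ g ∈ V, g ≠ 0 → ∀ i, mo.degree g i ≤ D := by
    intro g hg hg0 i
    rw [← hVsum g hg hg0]
    exact Finset.single_le_sum (f := fun i => mo.degree g i) (fun _ _ => Nat.zero_le _)
      (Finset.mem_univ i)
  set S : Set (I →₀ ℕ) := {β | ∃ g ∈ V, g ≠ 0 ∧ mo.degree g = β} with hS
  have hSfin : S.Finite := by
    apply (Set.finite_Icc (0 : I →₀ ℕ) (Finsupp.equivFunOnFinite.symm fun _ => D)).subset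
    rintro β ⟨g, hg, hg0, rfl⟩
    refine ⟨zero_le, fun i => ?_⟩
    simpa using hVle g hg hg0 i
  have hE : ∀ α ∈ hSfin.toFinset, ∑ i, α i = D := by
    intro α hα
    rw [Set.Finite.mem_toFinset] at hα
    obtain ⟨g, hg, hg0, rfl⟩ := hα
    exact hVsum g hg hg0
  have hdet : ∀ α : Fin 3 → I →₀ ℕ, (∀ b, α b ∈ hSfin.toFinset) →
      ∀ τ : Fin 3 → I, (Matrix.of fun a b => ((α b (τ a) : ℕ) : ℂ)).det = 0 := by
    intro α hα τ
    have h1 : ∀ b, ∃ g ∈ V, g ≠ 0 ∧ mo.degree g = α b := by
      intro b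
      have := hα b
      rwa [Set.Finite.mem_toFinset] at this
    choose g hg hg0 hgα using h1
    have h2 := lead_det mo 2 g hg0 τ (det_zero f 2 h g hg τ)
    simpa only [hgα] using h2
  have hcard := card_le_line D hE hdet
  refine le_trans ?_ hcard
  rw [← finrank_span_eq_card hli, ← hV]
  let Φ : V →ₗ[ℂ] (hSfin.toFinset → ℂ) :=
    LinearMap.pi fun β => (lcoeff ℂ β.1) ∘ₗ V.subtype
  have hΦ : Function.Injective Φ := by
    rw [← LinearMap.ker_eq_bot, LinearMap.ker_eq_bot']
    rintro ⟨g, hg⟩ hg1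
    by_contra hg0
    have hg0' : g ≠ 0 := fun h0 => hg0 (Subtype.ext h0)
    have h3 : mo.degree g ∈ hSfin.toFinset := by
      rw [Set.Finite.mem_toFinset]
      exact ⟨g, hg, hg0', rfl⟩
    have h4 := congrFun hg1 ⟨mo.degree g, h3⟩
    have h5 : coeff (mo.degree g) g = 0 := h4
    exact (mem_support_iff.1 (mo.degree_mem_support hg0')) h5
  have h6 := LinearMap.finrank_le_finrank_of_injective hΦ
  rw [Module.finrank_fintype_fun_eq_card, Fintype.card_coe] at h6
  exact h6

end Pool.Agent.H21.JP
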